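import Pool.Agent.Work.MP_a98e4e_ag.Fu.Core.KFacts
import Pool.Agent.Work.MP_a98e4e_ag.Fu.Cx.Dep
import Mathlib.RingTheory.LocalRing.ResidueField.Basic

section

/-!
# Cones, fibres, extensions, base change

* `cone hf` for `f : K → L` closed of degree `0`: `L ⊕ K[1]`, differential `[[d_L, f], [0, -d_K]]`.
* `fib hf` : `K ⊕ L[-1]`, differential `[[d_K, 0], [f, -d_L]]`.
* `ext hθ` for `θ : L → K` closed of degree `1`: `K ⊕ L`, differential `[[d_K, θ], [0, d_L]]`.
* `free n` : a free module in degree `n`.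
-/

set_option autoImplicit false
set_option linter.unusedSectionVars false

open Matrix Kronecker

namespace LicciCx

variable {R : Type*} [CommRing R]

section blocks

variable {A A' B B' : Type*} {p : A → ℤ} {p' : A' → ℤ} {q : B → ℤ} {q' : B' → ℤ} {n : ℤ}

theorem Hmg.fromBlocks {f : Matrix A' A R} {g : Matrix A' B R} {h : Matrix B' A R}
    {l : Matrix B' B R} (hf : Hmg p' p n f) (hg : Hmg p' q n g) (hh : Hmg q' p n h)
    (hl : Hmg q' q n l) :
    Hmg (Sum.elim p' q') (Sum.elim p q) n (Matrix.fromBlocks f g h l) := by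
  rintro (i | i) (j | j) hij
  · exact hf i j hij
  · exact hg i j hij
  · exact hh i j hij
  · exact hl i j hij

theorem Hmg.fromRows {f : Matrix A' A R} {h : Matrix B' A R} (hf : Hmg p' p n f)
    (hh : Hmg q' p n h) : Hmg (Sum.elim p' q') p n (Matrix.fromRows f h) := by
  rintro (i | i) j hij
  · exact hf i j hij
  · exact hh i j hij

theorem Hmg.fromCols {f : Matrix A' A R} {g : Matrix A' B R} (hf : Hmg p' p n f)
    (hg : Hmg p' q n g) : Hmg p' (Sum.elim p q) n (Matrix.fromCols f g) := by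
  rintro i (j | j) hij
  · exact hf i j hij
  · exact hg i j hij

/-- a change of degrees by a shift of the target -/
theorem Hmg.shiftL {f : Matrix A' A R} (hf : Hmg p' p n f) (m : ℤ) :
    Hmg (fun i => p' i + m) p (n + m) f := by
  intro i j h
  exact hf i j (by intro h2; apply h; simp only; omega)

/-- a change of degrees by a shift of the source -/
theorem Hmg.shiftR {f : Matrix A' A R} (hf : Hmg p' p n f) (m : ℤ) :
    Hmg p' (fun i => p i + m) (n - m) f := by
  intro i j h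
  exact hf i j (by intro h2; apply h; simp only; omega)

theorem Hmg.shift {f : Matrix A' A R} (hf : Hmg p' p n f) (m : ℤ) :
    Hmg (fun i => p' i + m) (fun i => p i + m) n f :=
  ((hf.shiftL m).shiftR m).cast (by ring)

theorem Hmg.fromRows_inl {f : Matrix A' A R} {h : Matrix B' A R}
    (hfh : Hmg (Sum.elim p' q') p n (Matrix.fromRows f h)) : Hmg p' p n f :=
  fun i j hij => hfh (Sum.inl i) j hij

theorem Hmg.fromRows_inr {f : Matrix A' A R} {h : Matrix B' A R}
    (hfh : Hmg (Sum.elim p' q') p n (Matrix.fromRows f h)) : Hmg q' p n h :=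
  fun i j hij => hfh (Sum.inr i) j hij

end blocks

namespace Cx

variable {J J' J'' : Type*} [Fintype J] [Fintype J'] [Fintype J'']
  [DecidableEq J] [DecidableEq J'] [DecidableEq J'']

/-- a free module concentrated in degree `n` -/
def free (R : Type*) [CommRing R] (J : Type*) [Fintype J] (n : ℤ) : Cx R J where
  deg _ := n
  d := 0
  hmg := Hmg.zero
  sq := by simp

@[simp] theorem free_d (n : ℤ) : (free R J n).d = 0 := rfl

@[simp] theorem free_deg (n : ℤ) (j : J) : (free R J n).deg j = n := rfl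

variable {K : Cx R J} {L : Cx R J'} {T : Cx R J''} {n m : ℤ}

/-- the mapping cone of a closed map of degree `0` -/
def cone {f : Matrix J' J R} (hf : Cl K L 0 f) : Cx R (J' ⊕ J) where
  deg := Sum.elim L.deg (fun j => K.deg j + (-1))
  d := Matrix.fromBlocks L.d f 0 (-K.d)
  hmg := Hmg.fromBlocks L.hmg ((hf.hmg.shiftR (-1)).cast (by ring)) Hmg.zero
    (K.hmg.neg.shift (-1))
  sq := by
    rw [Matrix.fromBlocks_multiply]
    simp [L.sq, K.sq, hf.comm0]

/-- the homotopy fibre of a closed map of degree `0` -/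
def fib {f : Matrix J' J R} (hf : Cl K L 0 f) : Cx R (J ⊕ J') where
  deg := Sum.elim K.deg (fun j => L.deg j + 1)
  d := Matrix.fromBlocks K.d 0 f (-L.d)
  hmg := Hmg.fromBlocks K.hmg Hmg.zero ((hf.hmg.shiftL 1).cast (by ring)) (L.hmg.neg.shift 1)
  sq := by
    rw [Matrix.fromBlocks_multiply]
    simp [L.sq, K.sq, hf.comm0]

/-- the extension of `L` by `K` with class `θ : L → K` (closed of degree `1`) -/
def ext {θ : Matrix J J' R} (hθ : Cl L K 1 θ) : Cx R (J ⊕ J') where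
  deg := Sum.elim K.deg L.deg
  d := Matrix.fromBlocks K.d θ 0 L.d
  hmg := Hmg.fromBlocks K.hmg hθ.hmg Hmg.zero L.hmg
  sq := by
    rw [Matrix.fromBlocks_multiply]
    simp [L.sq, K.sq, hθ.comm1]

theorem cone_d {f : Matrix J' J R} (hf : Cl K L 0 f) :
    (cone hf).d = Matrix.fromBlocks L.d f 0 (-K.d) := rfl

theorem fib_d {f : Matrix J' J R} (hf : Cl K L 0 f) :
    (fib hf).d = Matrix.fromBlocks K.d 0 f (-L.d) := rfl

theorem ext_d {θ : Matrix J J' R} (hθ : Cl L K 1 θ) :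
    (ext hθ).d = Matrix.fromBlocks K.d θ 0 L.d := rfl

theorem cone_deg {f : Matrix J' J R} (hf : Cl K L 0 f) :
    (cone hf).deg = Sum.elim L.deg (fun j => K.deg j + (-1)) := rfl

theorem fib_deg {f : Matrix J' J R} (hf : Cl K L 0 f) :
    (fib hf).deg = Sum.elim K.deg (fun j => L.deg j + 1) := rfl

theorem ext_deg {θ : Matrix J J' R} (hθ : Cl L K 1 θ) :
    (ext hθ).deg = Sum.elim K.deg L.deg := rfl

/-! ### inclusions and projections -/

theorem ext_inl {θ : Matrix J J' R} (hθ : Cl L K 1 θ) :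
    Cl K (ext hθ) 0 (Matrix.fromRows 1 0) :=
  Cl.mk0 (Hmg.fromRows Hmg.one Hmg.zero) (by
    rw [ext_d, Matrix.fromBlocks_mul_fromRows, Matrix.fromRows_mul]; simp)

theorem ext_pr {θ : Matrix J J' R} (hθ : Cl L K 1 θ) :
    Cl (ext hθ) L 0 (Matrix.fromCols 0 1) :=
  Cl.mk0 (Hmg.fromCols Hmg.zero Hmg.one) (by
    rw [ext_d, Matrix.fromCols_mul_fromBlocks, Matrix.mul_fromCols]; simp)

theorem cone_inl {f : Matrix J' J R} (hf : Cl K L 0 f) :
    Cl L (cone hf) 0 (Matrix.fromRows 1 0) :=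
  Cl.mk0 (Hmg.fromRows Hmg.one Hmg.zero) (by
    rw [cone_d, Matrix.fromBlocks_mul_fromRows, Matrix.fromRows_mul]; simp)

theorem cone_pr {f : Matrix J' J R} (hf : Cl K L 0 f) :
    Cl (cone hf) K 1 (Matrix.fromCols 0 1) :=
  Cl.mk1 (Hmg.fromCols Hmg.zero ((Hmg.one.shiftR (-1)).cast (by ring))) (by
    rw [cone_d, Matrix.fromCols_mul_fromBlocks, Matrix.mul_fromCols]
    ext i (j | j) <;> simp)

theorem fib_inr {f : Matrix J' J R} (hf : Cl K L 0 f) :
    Cl L (fib hf) 1 (Matrix.fromRows 0 1) :=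
  Cl.mk1 (Hmg.fromRows Hmg.zero ((Hmg.one.shiftL 1).cast (by ring))) (by
    rw [fib_d, Matrix.fromBlocks_mul_fromRows, Matrix.fromRows_mul]
    ext (i | i) j <;> simp)

theorem fib_pr {f : Matrix J' J R} (hf : Cl K L 0 f) :
    Cl (fib hf) K 0 (Matrix.fromCols 1 0) :=
  Cl.mk0 (Hmg.fromCols Hmg.one Hmg.zero) (by
    rw [fib_d, Matrix.fromCols_mul_fromBlocks, Matrix.mul_fromCols]; simp)

/-! ### maps into a fibre, maps out of a cone -/

/-- A map into the fibre: a map `u` to `K` and a homotopy `s` from `f u` to `0`. -/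
theorem Cl.toFib {f : Matrix J' J R} (hf : Cl K L 0 f) {u : Matrix J J'' R}
    {s : Matrix J' J'' R} (hu : Cl T K 0 u) (hs : IsHmg T L (-1) s)
    (h : f * u = L.d * s + s * T.d) : Cl T (fib hf) 0 (Matrix.fromRows u s) :=
  Cl.mk0 (Hmg.fromRows hu.hmg ((Hmg.shiftL hs 1).cast (by ring))) (by
    rw [fib_d, Matrix.fromBlocks_mul_fromRows, Matrix.fromRows_mul, hu.comm0, h]
    congr 1
    · simp
    · rw [Matrix.neg_mul]; abel)

/-- A map out of the cone: a map `u` from `L` and a homotopy `s` from `u f` to `0`. -/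
theorem Cl.ofCone {f : Matrix J' J R} (hf : Cl K L 0 f) {u : Matrix J'' J' R}
    {s : Matrix J'' J R} (hu : Cl L T 0 u) (hs : IsHmg K T (-1) s)
    (h : u * f = T.d * s + s * K.d) : Cl (cone hf) T 0 (Matrix.fromCols u s) :=
  Cl.mk0 (Hmg.fromCols hu.hmg ((Hmg.shiftR hs (-1)).cast (by ring))) (by
    rw [cone_d, Matrix.fromCols_mul_fromBlocks, Matrix.mul_fromCols, hu.comm0, h]
    congr 1
    · simp
    · rw [Matrix.mul_neg]; abel)

/-- A map into the cone: `u : T → L` of degree `0` and `s : T → K` closed of degree `1` with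
`d u + f s = u d`. -/
theorem Cl.toCone {f : Matrix J' J R} (hf : Cl K L 0 f) {u : Matrix J' J'' R}
    {s : Matrix J J'' R} (hu : IsHmg T L 0 u) (hs : Cl T K 1 s)
    (h : L.d * u + f * s = u * T.d) : Cl T (cone hf) 0 (Matrix.fromRows u s) :=
  Cl.mk0 (Hmg.fromRows hu ((Hmg.shiftL hs.hmg (-1)).cast (by ring))) (by
    rw [cone_d, Matrix.fromBlocks_mul_fromRows, Matrix.fromRows_mul, h]
    congr 1
    rw [Matrix.zero_mul, zero_add, Matrix.neg_mul, hs.comm1, neg_neg])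

/-! ### base change -/

/-- base change of a complex -/
def map {S : Type*} [CommRing S] (φ : R →+* S) (K : Cx R J) : Cx S J where
  deg := K.deg
  d := K.d.map φ
  hmg := K.hmg.map φ
  sq := by
    rw [← Matrix.map_mul, K.sq]
    ext i j; simp

section map

variable {S : Type*} [CommRing S] (φ : R →+* S)

@[simp] theorem map_d (K : Cx R J) : (K.map φ).d = K.d.map φ := rfl

@[simp] theorem map_deg (K : Cx R J) : (K.map φ).deg = K.deg := rfl

theorem map_e (K : Cx R J) : (K.map φ).e = K.e.map φ := (ep_map φ).symm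

theorem sg_smul_map (n : ℤ) (f : Matrix J' J R) :
    (((sg n : ℤ) : R) • f).map φ = ((sg n : ℤ) : S) • f.map φ := by
  ext i j; simp

theorem Cl.map {f : Matrix J' J R} (hf : Cl K L n f) : Cl (K.map φ) (L.map φ) n (f.map φ) :=
  ⟨Hmg.map φ hf.hmg, by
    rw [map_d, map_d, ← Matrix.map_mul, ← Matrix.map_mul, hf.comm, sg_smul_map]⟩

theorem Bd.map {f : Matrix J' J R} (hf : Bd K L n f) : Bd (K.map φ) (L.map φ) n (f.map φ) := by
  obtain ⟨s, hs, rfl⟩ := hf
  refine ⟨s.map φ, Hmg.map φ hs, ?_⟩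
  rw [map_d, map_d, ← Matrix.map_mul, ← Matrix.map_mul, ← sg_smul_map]
  exact Matrix.map_add φ (fun a b => map_add φ a b) _ _

theorem one_map : (1 : Matrix J J R).map φ = 1 := Matrix.map_one φ φ.map_zero φ.map_one

theorem map_add' (f g : Matrix J' J R) : (f + g).map φ = f.map φ + g.map φ := by ext; simp

theorem map_sub' (f g : Matrix J' J R) : (f - g).map φ = f.map φ - g.map φ := by ext; simp

theorem map_neg' (f : Matrix J' J R) : (-f).map φ = -f.map φ := by ext; simp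

theorem map_smul' (c : R) (f : Matrix J' J R) : (c • f).map φ = φ c • f.map φ := by ext; simp

theorem map_kron {A A' B B' : Type*} (f : Matrix A A' R) (g : Matrix B B' R) :
    (f ⊗ₖ g).map φ = f.map φ ⊗ₖ g.map φ := by
  ext i j; simp [Matrix.kroneckerMap_apply]

theorem map_tensor (K : Cx R J) (L : Cx R J') :
    (K.tensor L).map φ = (K.map φ).tensor (L.map φ) := by
  have h : ((K.tensor L).map φ).d = ((K.map φ).tensor (L.map φ)).d := by
    rw [map_d, tensor_d, tensor_d, map_add', map_kron, map_kron, map_e, one_map, map_d, map_d]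
  show Cx.mk _ _ _ _ = Cx.mk _ _ _ _
  congr 1

theorem map_dual (K : Cx R J) : (K.dual).map φ = (K.map φ).dual := by
  have h : ((K.dual).map φ).d = ((K.map φ).dual).d := by
    rw [map_d, dual_d, dual_d, map_neg', map_e, map_d, ← Matrix.map_mul]; rfl
  show Cx.mk _ _ _ _ = Cx.mk _ _ _ _
  congr 1

theorem map_Hom (K : Cx R J) (L : Cx R J') : (Hom K L).map φ = Hom (K.map φ) (L.map φ) := by
  rw [Hom, map_tensor, map_dual]; rfl

/-- If all entries of the differentials are killed by `φ`, boundaries are killed by `φ`. -/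
theorem Bd.map_eq_zero {f : Matrix J' J R} (hf : Bd K L n f) (hK : K.d.map φ = 0)
    (hL : L.d.map φ = 0) : f.map φ = 0 := by
  obtain ⟨s, hs, h⟩ := hf.map φ
  rw [h, map_d, map_d, hK, hL]
  simp

theorem tensor_d_map_eq_zero (hK : K.d.map φ = 0) (hL : L.d.map φ = 0) :
    (K.tensor L).d.map φ = 0 := by
  rw [tensor_d, map_add', map_kron, map_kron, hK, hL, zero_kron, kron_zero, add_zero]

theorem dual_d_map_eq_zero (hK : K.d.map φ = 0) : K.dual.d.map φ = 0 := by
  rw [dual_d, map_neg']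
  have : (K.e * K.d)ᵀ.map φ = ((K.e * K.d).map φ)ᵀ := rfl
  rw [this, Matrix.map_mul, hK]
  simp

theorem Hom_d_map_eq_zero (hK : K.d.map φ = 0) (hL : L.d.map φ = 0) :
    (Hom K L).d.map φ = 0 := tensor_d_map_eq_zero φ hL (dual_d_map_eq_zero φ hK)

end map

/-! ### pure tensors -/

/-- the vector `x ⊗ y` -/
def tv {A B : Type*} (x : A → R) (y : B → R) : A × B → R := fun i => x i.1 * y i.2

theorem kron_mulVec_tv {A A' B B' : Type*} [Fintype A] [Fintype B] (f : Matrix A' A R)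
    (g : Matrix B' B R) (x : A → R) (y : B → R) :
    (f ⊗ₖ g) *ᵥ tv x y = tv (f *ᵥ x) (g *ᵥ y) := by
  ext ⟨i, j⟩
  simp only [Matrix.mulVec, dotProduct, Fintype.sum_prod_type, Matrix.kroneckerMap_apply, tv]
  rw [Finset.sum_mul_sum]
  refine Finset.sum_congr rfl fun a _ => Finset.sum_congr rfl fun b _ => by ring

theorem tv_add {A B : Type*} (x : A → R) (y z : B → R) : tv x (y + z) = tv x y + tv x z := by
  ext i; simp [tv, mul_add]

theorem add_tv {A B : Type*} (x y : A → R) (z : B → R) : tv (x + y) z = tv x z + tv y z := by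
  ext i; simp [tv, add_mul]

theorem tv_smul {A B : Type*} (c : R) (x : A → R) (y : B → R) : tv x (c • y) = c • tv x y := by
  ext i; simp [tv, mul_left_comm]

theorem smul_tv {A B : Type*} (c : R) (x : A → R) (y : B → R) : tv (c • x) y = c • tv x y := by
  ext i; simp [tv, mul_assoc]

theorem tv_neg {A B : Type*} (x : A → R) (y : B → R) : tv x (-y) = -tv x y := by
  ext i; simp [tv]

theorem neg_tv {A B : Type*} (x : A → R) (y : B → R) : tv (-x) y = -tv x y := by
  ext i; simp [tv]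

theorem tv_zero {A B : Type*} (x : A → R) : tv x (0 : B → R) = 0 := by
  ext i; simp [tv]

theorem zero_tv {A B : Type*} (y : B → R) : tv (0 : A → R) y = 0 := by
  ext i; simp [tv]

theorem Vh.tv {x : J → R} {y : J' → R} (hx : Vh K n x) (hy : Vh L m y) :
    Vh (K.tensor L) (n + m) (tv x y) := by
  rintro ⟨i, j⟩ h
  show x i * y j = 0
  by_cases h1 : K.deg i = n
  · rw [hy j (by intro h2; apply h; rw [tensor_deg, h1, h2]), mul_zero]
  · rw [hx i h1, zero_mul]

theorem Vh.mulVec {f : Matrix J' J R} {x : J → R} (hf : IsHmg K L n f) (hx : Vh K m x) :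
    Vh L (m + n) (f *ᵥ x) := by
  intro i h
  rw [Matrix.mulVec, dotProduct]
  refine Finset.sum_eq_zero fun j _ => ?_
  by_cases h1 : K.deg j = m
  · rw [hf i j (by rw [h1]; exact h), zero_mul]
  · rw [hx j h1, mul_zero]

end Cx

end LicciCx

end

section

/-!
# Complexes that are contractible outside degree zero up to a scalar

`Con K c`: there is `h` of degree `-1` such that `c - (d h + h d)` is supported in degree zero.
Stability under tensor products, duals, extensions, cones and fibres.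
-/

set_option autoImplicit false
set_option linter.unusedSectionVars false

open Matrix Kronecker

namespace LicciCx

variable {R : Type*} [CommRing R]

/-- matrices supported in degree zero -/
def Sup0 {J J' : Type*} (p' : J' → ℤ) (p : J → ℤ) (f : Matrix J' J R) : Prop :=
  ∀ i j, ¬ (p' i = 0 ∧ p j = 0) → f i j = 0

section Sup0

variable {J J' J'' : Type*} {p : J → ℤ} {p' : J' → ℤ} {p'' : J'' → ℤ} {n m : ℤ}

theorem Sup0.zero : Sup0 p' p (0 : Matrix J' J R) := fun _ _ _ => rfl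

theorem Sup0.add {f g : Matrix J' J R} (hf : Sup0 p' p f) (hg : Sup0 p' p g) :
    Sup0 p' p (f + g) := by
  intro i j h; simp [hf i j h, hg i j h]

theorem Sup0.sub {f g : Matrix J' J R} (hf : Sup0 p' p f) (hg : Sup0 p' p g) :
    Sup0 p' p (f - g) := by
  intro i j h; simp [hf i j h, hg i j h]

theorem Sup0.neg {f : Matrix J' J R} (hf : Sup0 p' p f) : Sup0 p' p (-f) := by
  intro i j h; simp [hf i j h]

theorem Sup0.smul (c : R) {f : Matrix J' J R} (hf : Sup0 p' p f) : Sup0 p' p (c • f) := by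
  intro i j h; simp [hf i j h]

theorem Sup0.hmg {f : Matrix J' J R} (hf : Sup0 p' p f) : Hmg p' p 0 f := by
  intro i j h
  exact hf i j (by rintro ⟨h1, h2⟩; apply h; rw [h1, h2]; rfl)

/-- a homogeneous matrix times a matrix supported in degree zero -/
theorem Sup0.hmg_mul [Fintype J'] {f : Matrix J'' J' R} {g : Matrix J' J R}
    (hf : Hmg p'' p' 0 f) (hg : Sup0 p' p g) : Sup0 p'' p (f * g) := by
  intro i j h
  rw [Matrix.mul_apply]
  refine Finset.sum_eq_zero fun k _ => ?_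
  by_cases h1 : p' k = 0 ∧ p j = 0
  · rw [hf i k (by intro h2; apply h; exact ⟨by rw [h2, h1.1]; rfl, h1.2⟩), zero_mul]
  · rw [hg k j h1, mul_zero]

theorem Sup0.mul_hmg [Fintype J'] {f : Matrix J'' J' R} {g : Matrix J' J R}
    (hf : Sup0 p'' p' f) (hg : Hmg p' p 0 g) : Sup0 p'' p (f * g) := by
  intro i j h
  rw [Matrix.mul_apply]
  refine Finset.sum_eq_zero fun k _ => ?_
  by_cases h1 : p'' i = 0 ∧ p' k = 0
  · rw [hg k j (by intro h2; apply h; exact ⟨h1.1, by rw [h1.2] at h2; omega⟩), mul_zero]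
  · rw [hf i k h1, zero_mul]

theorem Sup0.transpose {f : Matrix J' J R} (hf : Sup0 p' p f) :
    Sup0 (fun j => -p j) (fun i => -p' i) fᵀ := by
  intro j i h
  exact hf i j (by rintro ⟨h1, h2⟩; apply h; simp [h1, h2])

theorem Sup0.kron {J₁ J₁' : Type*} {p₁ : J₁ → ℤ} {p₁' : J₁' → ℤ} {f : Matrix J' J R}
    {g : Matrix J₁' J₁ R} (hf : Sup0 p' p f) (hg : Sup0 p₁' p₁ g) :
    Sup0 (fun x : J' × J₁' => p' x.1 + p₁' x.2) (fun x : J × J₁ => p x.1 + p₁ x.2)
      (f ⊗ₖ g) := by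
  rintro ⟨i, i'⟩ ⟨j, j'⟩ h
  rw [Matrix.kroneckerMap_apply]
  by_cases h1 : p' i = 0 ∧ p j = 0
  · have h2 : ¬ (p₁' i' = 0 ∧ p₁ j' = 0) := by
      rintro ⟨h2, h3⟩; apply h; simp only; omega
    simp only [hg i' j' h2, mul_zero]
  · simp only [hf i j h1, zero_mul]

theorem Sup0.fromBlocks {J₁ J₁' : Type*} {p₁ : J₁ → ℤ} {p₁' : J₁' → ℤ} {A : Matrix J' J R}
    {B : Matrix J' J₁ R} {C : Matrix J₁' J R} {D : Matrix J₁' J₁ R} (hA : Sup0 p' p A)
    (hB : Sup0 p' p₁ B) (hC : Sup0 p₁' p C) (hD : Sup0 p₁' p₁ D) :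
    Sup0 (Sum.elim p' p₁') (Sum.elim p p₁) (Matrix.fromBlocks A B C D) := by
  rintro (i | i) (j | j) h
  · exact hA i j h
  · exact hB i j h
  · exact hC i j h
  · exact hD i j h

end Sup0

namespace Cx

variable {J J' : Type*} [Fintype J] [Fintype J'] [DecidableEq J] [DecidableEq J']

/-- `h` contracts `K` outside degree `0`, up to the scalar `c` -/
structure IsCon (K : Cx R J) (c : R) (h : Matrix J J R) : Prop where
  hmg : IsHmg K K (-1) h
  sup : Sup0 K.deg K.deg (c • (1 : Matrix J J R) - (K.d * h + h * K.d))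

/-- `K` is contractible outside degree `0`, up to the scalar `c` -/
def Con (K : Cx R J) (c : R) : Prop := ∃ h, IsCon K c h

/-- `K` is contractible outside degree `0`, up to a power of `a` -/
def UE (K : Cx R J) (a : R) : Prop := ∃ N : ℕ, Con K (a ^ N)

variable {K : Cx R J} {L : Cx R J'}

theorem UE.iff_licci (K : Cx R J) (a : R) :
    UE K a ↔ Pool.Agent.Licci.UE K.deg K.d a := by
  constructor
  · rintro ⟨N, h, h1, h2⟩
    refine ⟨N, h, ?_, ?_⟩
    · intro i j hij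
      by_contra h0
      exact hij (h1 i j (by omega))
    · intro i j hij
      by_contra h0
      exact hij (h2 i j h0)
  · rintro ⟨N, h, h1, h2⟩
    refine ⟨N, h, ?_, ?_⟩
    · intro i j hij
      by_contra h0
      exact hij (by have := h1 i j h0; omega)
    · intro i j hij
      by_contra h0
      exact hij (h2 i j h0)

/-- the projector of a contraction -/
def pr (K : Cx R J) (c : R) (h : Matrix J J R) : Matrix J J R :=
  c • (1 : Matrix J J R) - (K.d * h + h * K.d)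

theorem homotopy_comm (K : Cx R J) (h : Matrix J J R) :
    K.d * (K.d * h + h * K.d) = (K.d * h + h * K.d) * K.d := by
  rw [Matrix.mul_add, Matrix.add_mul, ← Matrix.mul_assoc, K.sq, Matrix.zero_mul, zero_add,
    Matrix.mul_assoc h, K.sq, Matrix.mul_zero, add_zero, Matrix.mul_assoc]

theorem pr_comm (K : Cx R J) (c : R) (h : Matrix J J R) :
    K.d * K.pr c h = K.pr c h * K.d := by
  rw [pr, Matrix.mul_sub, Matrix.sub_mul, homotopy_comm]
  simp

theorem IsCon.d_pr {c : R} {h : Matrix J J R} (hh : IsCon K c h) : K.d * K.pr c h = 0 := by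
  ext i j
  by_contra h0
  have h1 : K.deg j = 0 ∧ K.deg i = 1 := by
    rw [Matrix.mul_apply] at h0
    obtain ⟨k, -, hk⟩ := Finset.exists_ne_zero_of_sum_ne_zero h0
    have h2 := right_ne_zero_of_mul hk
    have h3 := left_ne_zero_of_mul hk
    have h4 : K.deg k = 0 ∧ K.deg j = 0 := by
      by_contra h5; exact h2 (hh.sup k j h5)
    have h6 : K.deg i = K.deg k + 1 := by
      by_contra h5; exact h3 (K.hmg i k h5)
    exact ⟨h4.2, by rw [h6, h4.1]; rfl⟩
  apply h0
  rw [pr_comm, Matrix.mul_apply]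
  refine Finset.sum_eq_zero fun k _ => ?_
  rw [show K.pr c h i k = 0 from hh.sup i k (by rintro ⟨h5, -⟩; omega), zero_mul]

theorem IsCon.pr_d {c : R} {h : Matrix J J R} (hh : IsCon K c h) : K.pr c h * K.d = 0 := by
  rw [← pr_comm, hh.d_pr]

theorem IsCon.smul {c : R} {h : Matrix J J R} (hh : IsCon K c h) (c' : R) :
    IsCon K (c' * c) (c' • h) := by
  refine ⟨hh.hmg.smul c', ?_⟩
  have := hh.sup.smul c'
  rw [smul_sub, smul_smul, smul_add, ← Matrix.mul_smul, ← Matrix.smul_mul] at this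
  exact this

theorem Con.smul {c : R} (hK : Con K c) (c' : R) : Con K (c' * c) := by
  obtain ⟨h, hh⟩ := hK
  exact ⟨_, hh.smul c'⟩

theorem Con.mul_right {c : R} (hK : Con K c) (c' : R) : Con K (c * c') := by
  rw [mul_comm]; exact hK.smul c'

theorem comp_identity {A : Type*} [Ring A] [Algebra R A] {d h₀ h₁ : A} (hd : d * d = 0)
    (c c' : R) :
    (c' * c) • (1 : A) - (d * (c' • h₁ + c • h₀ - h₀ * (d * h₁ + h₁ * d)) +
      (c' • h₁ + c • h₀ - h₀ * (d * h₁ + h₁ * d)) * d) =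
    (c' • (1 : A) - (d * h₀ + h₀ * d)) * (c • (1 : A) - (d * h₁ + h₁ * d)) := by
  have hd' : ∀ x, d * (d * x) = 0 := fun x => by rw [← mul_assoc, hd, zero_mul]
  simp only [mul_add, add_mul, mul_sub, sub_mul, smul_mul_assoc, mul_smul_comm, mul_one, one_mul,
    mul_assoc, hd, hd', mul_zero, add_zero]
  module

/-- composition lemma -/
theorem Con.comp {c c' : R} {h₀ h₁ : Matrix J J R} (hh₀ : IsHmg K K (-1) h₀)
    (hh₁ : IsHmg K K (-1) h₁)
    (hs : Sup0 K.deg K.deg ((c' • (1 : Matrix J J R) - (K.d * h₀ + h₀ * K.d)) *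
      (c • (1 : Matrix J J R) - (K.d * h₁ + h₁ * K.d)))) : Con K (c' * c) := by
  have hg : IsHmg K K 0 (K.d * h₁ + h₁ * K.d) :=
    (K.hmg.mul' hh₁ (by norm_num)).add (hh₁.mul' K.hmg (by norm_num))
  refine ⟨c' • h₁ + c • h₀ - h₀ * (K.d * h₁ + h₁ * K.d),
    ((hh₁.smul c').add (hh₀.smul c)).sub (hh₀.mul' hg (by norm_num)), ?_⟩
  rw [comp_identity K.sq]
  exact hs

/-! ## tensor product and dual -/

theorem IsCon.tensor {c c' : R} {h : Matrix J J R} {h' : Matrix J' J' R} (hh : IsCon K c h)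
    (hh' : IsCon L c' h') :
    IsCon (K.tensor L) (c * c') (c' • (h ⊗ₖ (1 : Matrix J' J' R)) + K.pr c h ⊗ₖ h') := by
  have hp : K.e * K.pr c h = K.pr c h := by
    ext i j
    simp only [ep, Matrix.diagonal_mul]
    by_cases h0 : K.deg i = 0 ∧ K.deg j = 0
    · rw [h0.1, sg_zero]; simp
    · rw [show K.pr c h i j = 0 from hh.sup i j h0, mul_zero]
  have hp' : K.pr c h * K.e = K.pr c h := by
    ext i j
    simp only [ep, Matrix.mul_diagonal]
    by_cases h0 : K.deg i = 0 ∧ K.deg j = 0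
    · rw [h0.2, sg_zero]; simp
    · rw [show K.pr c h i j = 0 from hh.sup i j h0, zero_mul]
  have heh : K.e * h = -(h * K.e) := ep_mul_odd' hh.hmg
  refine ⟨?_, ?_⟩
  · refine Hmg.add (Hmg.smul c' ((IsHmg.kron hh.hmg (Hmg.one : IsHmg L L 0 1)).cast (by ring))) ?_
    exact (IsHmg.kron (n := 0) (hh.sup.hmg : IsHmg K K 0 (K.pr c h)) hh'.hmg).cast (by ring)
  · have key : (c * c') • (1 : Matrix (J × J') (J × J') R) -
        ((K.tensor L).d * (c' • (h ⊗ₖ (1 : Matrix J' J' R)) + K.pr c h ⊗ₖ h') +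
          (c' • (h ⊗ₖ (1 : Matrix J' J' R)) + K.pr c h ⊗ₖ h') * (K.tensor L).d) =
        K.pr c h ⊗ₖ L.pr c' h' := by
      have h1 : K.d * h + h * K.d = c • (1 : Matrix J J R) - K.pr c h := by
        rw [pr]; abel
      have h2 : L.d * h' + h' * L.d = c' • (1 : Matrix J' J' R) - L.pr c' h' := by
        rw [pr]; abel
      have e1 : (K.tensor L).d * (h ⊗ₖ (1 : Matrix J' J' R)) + (h ⊗ₖ (1 : Matrix J' J' R)) * (K.tensor L).d
          = (c • (1 : Matrix J J R) - K.pr c h) ⊗ₖ (1 : Matrix J' J' R) := by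
        rw [tensor_d, Matrix.add_mul, Matrix.mul_add, ← Matrix.mul_kronecker_mul,
          ← Matrix.mul_kronecker_mul, ← Matrix.mul_kronecker_mul, ← Matrix.mul_kronecker_mul,
          heh, ← h1, add_kron, neg_kron]
        simp only [Matrix.mul_one, Matrix.one_mul]
        abel
      have e2 : (K.tensor L).d * (K.pr c h ⊗ₖ h') + (K.pr c h ⊗ₖ h') * (K.tensor L).d
          = K.pr c h ⊗ₖ (c' • (1 : Matrix J' J' R) - L.pr c' h') := by
        rw [tensor_d, Matrix.add_mul, Matrix.mul_add, ← Matrix.mul_kronecker_mul,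
          ← Matrix.mul_kronecker_mul, ← Matrix.mul_kronecker_mul, ← Matrix.mul_kronecker_mul,
          hh.d_pr, hh.pr_d, hp, hp', zero_kron, zero_kron, zero_add, zero_add, ← h2, kron_add]
      have e3 : (K.tensor L).d * (c' • (h ⊗ₖ (1 : Matrix J' J' R)) + K.pr c h ⊗ₖ h') +
          (c' • (h ⊗ₖ (1 : Matrix J' J' R)) + K.pr c h ⊗ₖ h') * (K.tensor L).d =
          c' • ((K.tensor L).d * (h ⊗ₖ (1 : Matrix J' J' R)) + (h ⊗ₖ (1 : Matrix J' J' R)) * (K.tensor L).d)
          + ((K.tensor L).d * (K.pr c h ⊗ₖ h') + (K.pr c h ⊗ₖ h') * (K.tensor L).d) := by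
        rw [Matrix.mul_add, Matrix.add_mul, Matrix.mul_smul, Matrix.smul_mul, smul_add]
        abel
      rw [e3, e1, e2, sub_kron, kron_sub, smul_kron, kron_smul, Matrix.one_kronecker_one,
        smul_sub, smul_smul, mul_comm c' c]
      abel
    have h3 : Sup0 (K.tensor L).deg (K.tensor L).deg (K.pr c h ⊗ₖ L.pr c' h') :=
      Sup0.kron hh.sup hh'.sup
    rw [← key] at h3
    exact h3

theorem Con.tensor {c c' : R} (hK : Con K c) (hL : Con L c') : Con (K.tensor L) (c * c') := by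
  obtain ⟨h, hh⟩ := hK
  obtain ⟨h', hh'⟩ := hL
  exact ⟨_, hh.tensor hh'⟩

theorem IsCon.dual {c : R} {h : Matrix J J R} (hh : IsCon K c h) :
    IsCon K.dual c (K.e * h)ᵀ := by
  have heh : K.e * h = -(h * K.e) := ep_mul_odd' hh.hmg
  refine ⟨(IsHmg.transpose (K := K) (L := K) (K.e_hmg.mul hh.hmg)).cast (by ring), ?_⟩
  have h1 : K.dual.d * (K.e * h)ᵀ + (K.e * h)ᵀ * K.dual.d = (K.d * h + h * K.d)ᵀ := by
    rw [dual_d, Matrix.neg_mul, Matrix.mul_neg, ← Matrix.transpose_mul, ← Matrix.transpose_mul,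
      ← Matrix.transpose_neg, ← Matrix.transpose_neg, ← Matrix.transpose_add]
    congr 1
    have a1 : K.e * h * (K.e * K.d) = -(h * K.d) := by
      rw [heh, Matrix.neg_mul, Matrix.mul_assoc, ← Matrix.mul_assoc K.e K.e, K.e_mul_self,
        Matrix.one_mul]
    have a2 : K.e * K.d * (K.e * h) = -(K.d * h) := by
      rw [K.e_mul_d, Matrix.neg_mul, Matrix.mul_assoc, ← Matrix.mul_assoc K.e K.e, K.e_mul_self,
        Matrix.one_mul]
    rw [a1, a2, neg_neg, neg_neg, add_comm]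
  rw [h1]
  have h2 := hh.sup.transpose
  rw [Matrix.transpose_sub, Matrix.transpose_smul, Matrix.transpose_one] at h2
  exact h2

theorem Con.dual {c : R} (hK : Con K c) : Con K.dual c := by
  obtain ⟨h, hh⟩ := hK
  exact ⟨_, hh.dual⟩

theorem Con.hom {c c' : R} (hK : Con K c) (hL : Con L c') : Con (Hom K L) (c' * c) :=
  hL.tensor hK.dual

theorem UE.tensor {a : R} (hK : UE K a) (hL : UE L a) : UE (K.tensor L) a := by
  obtain ⟨N, hK⟩ := hK
  obtain ⟨N', hL⟩ := hL
  exact ⟨N + N', by rw [pow_add]; exact hK.tensor hL⟩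

theorem UE.dual {a : R} (hK : UE K a) : UE K.dual a := by
  obtain ⟨N, hK⟩ := hK
  exact ⟨N, hK.dual⟩

theorem UE.hom {a : R} (hK : UE K a) (hL : UE L a) : UE (Hom K L) a := hL.tensor hK.dual

theorem smul_one_sum (c : R) : c • (1 : Matrix (J ⊕ J') (J ⊕ J') R) =
    Matrix.fromBlocks (c • (1 : Matrix J J R)) 0 0 (c • (1 : Matrix J' J' R)) := by
  rw [← Matrix.fromBlocks_one, Matrix.fromBlocks_smul, smul_zero, smul_zero]

theorem fromBlocks_sub' {A A' B B' : Type*} (a a' : Matrix A A' R) (b b' : Matrix A B' R)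
    (c c' : Matrix B A' R) (d d' : Matrix B B' R) :
    Matrix.fromBlocks a b c d - Matrix.fromBlocks a' b' c' d' =
      Matrix.fromBlocks (a - a') (b - b') (c - c') (d - d') := by
  ext (i | i) (j | j) <;> simp

theorem Con.ext {c : R} (hK : Con K c) (hL : Con L c) {θ : Matrix J J' R} (hθ : Cl L K 1 θ) :
    Con (Cx.ext hθ) (c * c) := by
  obtain ⟨hk, hhk⟩ := hK
  obtain ⟨hl, hhl⟩ := hL
  have hh : IsHmg (Cx.ext hθ) (Cx.ext hθ) (-1) (Matrix.fromBlocks hk 0 0 hl) :=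
    Hmg.fromBlocks hhk.hmg Hmg.zero Hmg.zero hhl.hmg
  refine Con.comp hh hh ?_
  have e1 : c • (1 : Matrix (J ⊕ J') (J ⊕ J') R) - ((Cx.ext hθ).d * Matrix.fromBlocks hk 0 0 hl +
      Matrix.fromBlocks hk 0 0 hl * (Cx.ext hθ).d) =
      Matrix.fromBlocks (K.pr c hk) (-(θ * hl + hk * θ)) 0 (L.pr c hl) := by
    rw [ext_d, smul_one_sum, Matrix.fromBlocks_multiply, Matrix.fromBlocks_multiply,
      Matrix.fromBlocks_add, fromBlocks_sub']
    simp [pr]
  rw [e1, Matrix.fromBlocks_multiply]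
  have hN : IsHmg L K 0 (-(θ * hl + hk * θ)) :=
    ((hθ.hmg.mul' hhl.hmg (by norm_num)).add (hhk.hmg.mul' hθ.hmg (by norm_num))).neg
  refine Sup0.fromBlocks ?_ ?_ ?_ ?_
  · rw [Matrix.mul_zero, add_zero]
    exact Sup0.mul_hmg hhk.sup (Sup0.hmg hhk.sup)
  · exact (Sup0.mul_hmg hhk.sup hN).add (Sup0.hmg_mul hN hhl.sup)
  · rw [Matrix.zero_mul, Matrix.mul_zero, add_zero]
    exact Sup0.zero
  · rw [Matrix.zero_mul, zero_add]
    exact Sup0.mul_hmg hhl.sup (Sup0.hmg hhl.sup)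

theorem UE.ext {a : R} (hK : UE K a) (hL : UE L a) {θ : Matrix J J' R} (hθ : Cl L K 1 θ) :
    UE (Cx.ext hθ) a := by
  obtain ⟨N, hK⟩ := hK
  obtain ⟨N', hL⟩ := hL
  refine ⟨(N + N') + (N + N'), ?_⟩
  rw [pow_add a (N + N')]
  refine Con.ext ?_ ?_ hθ
  · rw [add_comm N, pow_add]; exact hK.smul _
  · rw [pow_add]; exact hL.smul _

/-- The cone of `f : X → W` is contractible outside degree `0` if `W` is and if `f` has a left
inverse up to homotopy (and up to scalars). -/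
theorem Con.cone {X : Cx R J} {W : Cx R J'} {c c' : R} (hW : Con W c') {f : Matrix J' J R}
    (hf : Cl X W 0 f) {r : Matrix J J' R} {s : Matrix J J R} (hr : Cl W X 0 r)
    (hs : IsHmg X X (-1) s) (hrf : r * f = c • (1 : Matrix J J R) + (X.d * s + s * X.d)) :
    Con (Cx.cone hf) (c' * c) := by
  obtain ⟨hw, hhw⟩ := hW
  have hh0 : IsHmg (Cx.cone hf) (Cx.cone hf) (-1) (Matrix.fromBlocks hw 0 0 0) :=
    Hmg.fromBlocks hhw.hmg Hmg.zero Hmg.zero Hmg.zero
  have hh1 : IsHmg (Cx.cone hf) (Cx.cone hf) (-1) (Matrix.fromBlocks 0 0 r s) :=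
    Hmg.fromBlocks Hmg.zero Hmg.zero
      (fun i j h => hr.hmg i j (by intro h1; apply h; rw [h1]; ring))
      (fun i j h => hs i j (by intro h1; apply h; rw [h1]))
  refine Con.comp hh0 hh1 ?_
  have e0 : c' • (1 : Matrix (J' ⊕ J) (J' ⊕ J) R) - ((Cx.cone hf).d * Matrix.fromBlocks hw 0 0 0 +
      Matrix.fromBlocks hw 0 0 0 * (Cx.cone hf).d) =
      Matrix.fromBlocks (W.pr c' hw) (-(hw * f)) 0 (c' • 1) := by
    rw [cone_d, smul_one_sum, Matrix.fromBlocks_multiply, Matrix.fromBlocks_multiply,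
      Matrix.fromBlocks_add, fromBlocks_sub']
    simp [pr]
  have e1 : c • (1 : Matrix (J' ⊕ J) (J' ⊕ J) R) - ((Cx.cone hf).d * Matrix.fromBlocks 0 0 r s +
      Matrix.fromBlocks 0 0 r s * (Cx.cone hf).d) =
      Matrix.fromBlocks (c • 1 - f * r) (-(f * s)) 0 0 := by
    rw [cone_d, smul_one_sum, Matrix.fromBlocks_multiply, Matrix.fromBlocks_multiply,
      Matrix.fromBlocks_add, fromBlocks_sub', hrf]
    congr 1
    · simp
    · simp
    · simp only [Matrix.neg_mul, Matrix.zero_mul, zero_add, Matrix.mul_zero, add_zero, zero_sub]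
      rw [hr.comm0]; simp
    · simp only [Matrix.neg_mul, Matrix.mul_neg, Matrix.zero_mul, zero_add]
      abel
  rw [e0, e1, Matrix.fromBlocks_multiply]
  have hfr : IsHmg W W 0 (c • (1 : Matrix J' J' R) - f * r) :=
    (Hmg.smul c Hmg.one).sub (hf.hmg.mul' hr.hmg (by norm_num))
  have hfs : Hmg W.deg (fun j => X.deg j + (-1)) 0 (-(f * s)) :=
    Hmg.neg (fun i j h => (hf.hmg.mul hs) i j (by intro h1; apply h; rw [h1]; ring))
  refine Sup0.fromBlocks ?_ ?_ ?_ ?_
  · rw [Matrix.mul_zero, add_zero]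
    exact Sup0.mul_hmg hhw.sup hfr
  · rw [Matrix.mul_zero, add_zero]
    exact Sup0.mul_hmg hhw.sup hfs
  · rw [Matrix.zero_mul, Matrix.mul_zero, add_zero]
    exact Sup0.zero
  · rw [Matrix.zero_mul, Matrix.mul_zero, add_zero]
    exact Sup0.zero

/-- The fibre of `f : W → X` is contractible outside degree `0` if `W` is and if `f` has a right
inverse up to homotopy (and up to scalars). -/
theorem Con.fib {X : Cx R J} {W : Cx R J'} {c c' : R} (hW : Con W c') {f : Matrix J J' R}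
    (hf : Cl W X 0 f) {r : Matrix J' J R} {s : Matrix J J R} (hr : Cl X W 0 r)
    (hs : IsHmg X X (-1) s) (hfr : f * r = c • (1 : Matrix J J R) + (X.d * s + s * X.d)) :
    Con (Cx.fib hf) (c * c') := by
  obtain ⟨hw, hhw⟩ := hW
  have hh0 : IsHmg (Cx.fib hf) (Cx.fib hf) (-1) (Matrix.fromBlocks hw 0 0 0) :=
    Hmg.fromBlocks hhw.hmg Hmg.zero Hmg.zero Hmg.zero
  have hh1 : IsHmg (Cx.fib hf) (Cx.fib hf) (-1) (Matrix.fromBlocks 0 r 0 s) :=
    Hmg.fromBlocks Hmg.zero
      (fun i j h => hr.hmg i j (by intro h1; apply h; rw [h1]; ring)) Hmg.zero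
      (fun i j h => hs i j (by intro h1; apply h; rw [h1]; ring))
  refine Con.comp hh1 hh0 ?_
  have e0 : c' • (1 : Matrix (J' ⊕ J) (J' ⊕ J) R) - ((Cx.fib hf).d * Matrix.fromBlocks hw 0 0 0 +
      Matrix.fromBlocks hw 0 0 0 * (Cx.fib hf).d) =
      Matrix.fromBlocks (W.pr c' hw) 0 (-(f * hw)) (c' • 1) := by
    rw [fib_d, smul_one_sum, Matrix.fromBlocks_multiply, Matrix.fromBlocks_multiply,
      Matrix.fromBlocks_add, fromBlocks_sub']
    simp [pr]
  have e1 : c • (1 : Matrix (J' ⊕ J) (J' ⊕ J) R) - ((Cx.fib hf).d * Matrix.fromBlocks 0 r 0 s +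
      Matrix.fromBlocks 0 r 0 s * (Cx.fib hf).d) =
      Matrix.fromBlocks (c • 1 - r * f) 0 (-(s * f)) 0 := by
    rw [fib_d, smul_one_sum, Matrix.fromBlocks_multiply, Matrix.fromBlocks_multiply,
      Matrix.fromBlocks_add, fromBlocks_sub', hfr]
    congr 1
    · simp
    · simp only [Matrix.neg_mul, Matrix.mul_neg, Matrix.zero_mul, zero_add, Matrix.mul_zero, add_zero]
      rw [hr.comm0]; simp
    · simp
    · simp only [Matrix.neg_mul, Matrix.mul_neg, Matrix.zero_mul, Matrix.mul_zero, zero_add]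
      abel
  rw [e0, e1, Matrix.fromBlocks_multiply]
  have hrf : IsHmg W W 0 (c • (1 : Matrix J' J' R) - r * f) :=
    (Hmg.smul c Hmg.one).sub (hr.hmg.mul' hf.hmg (by norm_num))
  have hsf : Hmg (fun j => X.deg j + 1) W.deg 0 (-(s * f)) :=
    Hmg.neg (fun i j h => (hs.mul hf.hmg) i j (by intro h1; apply h; rw [h1]; ring))
  refine Sup0.fromBlocks ?_ ?_ ?_ ?_
  · rw [Matrix.zero_mul, add_zero]
    exact Sup0.hmg_mul hrf hhw.sup
  · rw [Matrix.zero_mul, Matrix.mul_zero, add_zero]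
    exact Sup0.zero
  · rw [Matrix.zero_mul, add_zero]
    exact Sup0.hmg_mul hsf hhw.sup
  · rw [Matrix.zero_mul, Matrix.mul_zero, add_zero]
    exact Sup0.zero

theorem UE.cone {X : Cx R J} {W : Cx R J'} {a : R} (hW : UE W a) {f : Matrix J' J R}
    (hf : Cl X W 0 f)
    (hr : ∃ (N : ℕ) (r : Matrix J J' R), Cl W X 0 r ∧ Bd X X 0 (r * f - a ^ N • (1 : Matrix J J R))) :
    UE (Cx.cone hf) a := by
  obtain ⟨N, hW⟩ := hW
  obtain ⟨N', r, hr, s, hs, hrf⟩ := hr
  refine ⟨N + N', ?_⟩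
  rw [pow_add]
  refine Con.cone hW hf hr (s := s) (hs.cast (by norm_num)) ?_
  rw [sg_zero] at hrf
  rw [← sub_eq_iff_eq_add', hrf]; simp

theorem UE.fib {X : Cx R J} {W : Cx R J'} {a : R} (hW : UE W a) {f : Matrix J J' R}
    (hf : Cl W X 0 f)
    (hr : ∃ (N : ℕ) (r : Matrix J' J R), Cl X W 0 r ∧ Bd X X 0 (f * r - a ^ N • (1 : Matrix J J R))) :
    UE (Cx.fib hf) a := by
  obtain ⟨N, hW⟩ := hW
  obtain ⟨N', r, hr, s, hs, hrf⟩ := hr
  refine ⟨N' + N, ?_⟩
  rw [pow_add]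
  refine Con.fib hW hf hr (s := s) (hs.cast (by norm_num)) ?_
  rw [sg_zero] at hrf
  rw [← sub_eq_iff_eq_add', hrf]; simp

/-- base change -/
theorem Con.map {S : Type*} [CommRing S] (φ : R →+* S) {c : R} (hK : Con K c) :
    Con (K.map φ) (φ c) := by
  obtain ⟨h, hh⟩ := hK
  refine ⟨h.map φ, Hmg.map φ hh.hmg, ?_⟩
  intro i j hij
  have h1 := hh.sup i j hij
  have h2 : (φ c • (1 : Matrix J J S) - ((K.map φ).d * h.map φ + h.map φ * (K.map φ).d)) =
      (c • (1 : Matrix J J R) - (K.d * h + h * K.d)).map φ := by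
    rw [map_sub', map_add', map_smul', one_map, map_d, Matrix.map_mul, Matrix.map_mul]
  rw [h2, Matrix.map_apply, h1, map_zero]

theorem UE.map {S : Type*} [CommRing S] (φ : R →+* S) {a : R} (hK : UE K a) :
    UE (K.map φ) (φ a) := by
  obtain ⟨N, hK⟩ := hK
  exact ⟨N, by rw [← map_pow]; exact hK.map φ⟩

/-- a complex concentrated in degree `0` -/
theorem UE.free (a : R) : UE (Cx.free R J 0) a := by
  refine ⟨0, 0, Hmg.zero, ?_⟩
  intro i j hij
  exact absurd ⟨rfl, rfl⟩ hij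

end Cx

end LicciCx

end

section

/-!
# Cocycles and boundaries of degree zero, free complexes
-/

set_option autoImplicit false

open Matrix Kronecker

namespace LicciCx

namespace Cx

variable {R : Type*} [CommRing R] {J J' J'' : Type*} [Fintype J] [Fintype J'] [Fintype J'']

/-- cocycles of degree `0` -/
def Z0 (K : Cx R J) : Submodule R (J → R) where
  carrier := {z | (∀ j, K.deg j ≠ 0 → z j = 0) ∧ K.d *ᵥ z = 0}
  add_mem' := by
    rintro a b ⟨h1, h2⟩ ⟨h3, h4⟩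
    exact ⟨fun j hj => by simp [h1 j hj, h3 j hj], by rw [Matrix.mulVec_add, h2, h4, add_zero]⟩
  zero_mem' := ⟨fun _ _ => rfl, Matrix.mulVec_zero _⟩
  smul_mem' := by
    rintro c a ⟨h1, h2⟩
    exact ⟨fun j hj => by simp [h1 j hj], by rw [Matrix.mulVec_smul, h2, smul_zero]⟩

/-- boundaries of degree `0` -/
def B0 (K : Cx R J) : Submodule R (J → R) where
  carrier := {z | ∃ w : J → R, (∀ j, K.deg j ≠ -1 → w j = 0) ∧ K.d *ᵥ w = z}
  add_mem' := by
    rintro a b ⟨w, h1, h2⟩ ⟨v, h3, h4⟩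
    exact ⟨w + v, fun j hj => by simp [h1 j hj, h3 j hj], by rw [Matrix.mulVec_add, h2, h4]⟩
  zero_mem' := ⟨0, fun _ _ => rfl, Matrix.mulVec_zero _⟩
  smul_mem' := by
    rintro c a ⟨w, h1, h2⟩
    exact ⟨c • w, fun j hj => by simp [h1 j hj], by rw [Matrix.mulVec_smul, h2]⟩

/-- vectors a nonzero multiple of which is a boundary of degree `0` -/
def BT [IsDomain R] (K : Cx R J) : Submodule R (J → R) where
  carrier := {z | ∃ c : R, c ≠ 0 ∧ c • z ∈ K.B0}
  add_mem' := by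
    rintro a b ⟨c, hc, h1⟩ ⟨c', hc', h2⟩
    refine ⟨c' * c, mul_ne_zero hc' hc, ?_⟩
    rw [smul_add]
    refine add_mem ?_ ?_
    · rw [mul_smul]; exact K.B0.smul_mem _ h1
    · rw [mul_comm, mul_smul]; exact K.B0.smul_mem _ h2
  zero_mem' := ⟨1, one_ne_zero, by rw [smul_zero]; exact zero_mem _⟩
  smul_mem' := by
    rintro c a ⟨c', hc', h⟩
    exact ⟨c', hc', by rw [smul_comm]; exact K.B0.smul_mem _ h⟩

/-- decomposable vectors -/
abbrev vk {A B : Type*} (x : A → R) (y : B → R) : A × B → R := tv x y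

end Cx

end LicciCx

end

section

/-!
# The symmetry and the associativity of the tensor product of complexes
-/

set_option autoImplicit false
set_option linter.unusedSectionVars false

open Matrix Kronecker

namespace LicciCx

namespace Cx

variable {R : Type*} [CommRing R] {J J' J'' A : Type*} [Fintype J] [Fintype J'] [Fintype J'']
  [Fintype A] [DecidableEq J] [DecidableEq J'] [DecidableEq J''] [DecidableEq A]

/-- the symmetry `K ⊗ L → L ⊗ K`, with the Koszul sign -/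
def sw (K : Cx R J) (L : Cx R J') : Matrix (J' × J) (J × J') R := fun x y =>
  if x = (y.2, y.1) then ((sg (K.deg y.1 * L.deg y.2) : ℤ) : R) else 0

/-- the associativity `(K ⊗ L) ⊗ M → K ⊗ (L ⊗ M)` -/
def asc (R : Type*) [CommRing R] (J J' J'' : Type*) [DecidableEq J] [DecidableEq J']
    [DecidableEq J''] : Matrix (J × (J' × J'')) ((J × J') × J'') R := fun x y =>
  if x = (y.1.1, (y.1.2, y.2)) then 1 else 0

/-- the inverse associativity -/
def asi (R : Type*) [CommRing R] (J J' J'' : Type*) [DecidableEq J] [DecidableEq J']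
    [DecidableEq J''] : Matrix ((J × J') × J'') (J × (J' × J'')) R := fun x y =>
  if x = ((y.1, y.2.1), y.2.2) then 1 else 0

theorem mul_sw (K : Cx R J) (L : Cx R J') (M : Matrix A (J' × J) R) (a : A) (i : J) (j : J') :
    (M * sw K L) a (i, j) = ((sg (K.deg i * L.deg j) : ℤ) : R) * M a (j, i) := by
  rw [Matrix.mul_apply, Finset.sum_eq_single (j, i)]
  · simp [sw, mul_comm]
  · intro b _ hb; simp [sw, hb]
  · simp

theorem sw_mul (K : Cx R J) (L : Cx R J') (M : Matrix (J × J') A R) (a : A) (i : J) (j : J') :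
    (sw K L * M) (j, i) a = ((sg (K.deg i * L.deg j) : ℤ) : R) * M (i, j) a := by
  rw [Matrix.mul_apply, Finset.sum_eq_single (i, j)]
  · simp [sw]
  · rintro ⟨b, b'⟩ _ hb
    have : ¬ ((j, i) = (b', b)) := by
      intro h; apply hb; rw [Prod.mk.injEq] at h ⊢; exact ⟨h.2.symm, h.1.symm⟩
    simp [sw, this]
  · simp

theorem mul_asc (M : Matrix A (J × (J' × J'')) R) (a : A) (i : J) (j : J') (l : J'') :
    (M * asc R J J' J'') a ((i, j), l) = M a (i, (j, l)) := by
  rw [Matrix.mul_apply, Finset.sum_eq_single (i, (j, l))]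
  · simp [asc]
  · intro b _ hb; simp [asc, hb]
  · simp

theorem asc_mul (M : Matrix ((J × J') × J'') A R) (a : A) (i : J) (j : J') (l : J'') :
    (asc R J J' J'' * M) (i, (j, l)) a = M ((i, j), l) a := by
  rw [Matrix.mul_apply, Finset.sum_eq_single ((i, j), l)]
  · simp [asc]
  · rintro ⟨⟨b, b'⟩, b''⟩ _ hb
    have : ¬ ((i, (j, l)) = (b, (b', b''))) := by
      intro h; apply hb
      simp only [Prod.mk.injEq] at h ⊢
      exact ⟨⟨h.1.symm, h.2.1.symm⟩, h.2.2.symm⟩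
    simp only [asc, this, if_false, zero_mul]
  · simp

theorem mul_asi (M : Matrix A ((J × J') × J'') R) (a : A) (i : J) (j : J') (l : J'') :
    (M * asi R J J' J'') a (i, (j, l)) = M a ((i, j), l) := by
  rw [Matrix.mul_apply, Finset.sum_eq_single ((i, j), l)]
  · simp [asi]
  · intro b _ hb; simp [asi, hb]
  · simp

theorem asi_mul (M : Matrix (J × (J' × J'')) A R) (a : A) (i : J) (j : J') (l : J'') :
    (asi R J J' J'' * M) ((i, j), l) a = M (i, (j, l)) a := by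
  rw [Matrix.mul_apply, Finset.sum_eq_single (i, (j, l))]
  · simp [asi]
  · rintro ⟨b, ⟨b', b''⟩⟩ _ hb
    have : ¬ (((i, j), l) = ((b, b'), b'')) := by
      intro h; apply hb
      simp only [Prod.mk.injEq] at h ⊢
      exact ⟨h.1.1.symm, h.1.2.symm, h.2.symm⟩
    simp only [asi, this, if_false, zero_mul]
  · simp

/-- the product of `f ⊗ 1` -/
theorem mul_kron_one {B : Type*} [Fintype B] (M : Matrix A (J × J') R) (f : Matrix J B R)
    (a : A) (b : B) (j : J') :
    (M * (f ⊗ₖ (1 : Matrix J' J' R))) a (b, j) = ∑ i, M a (i, j) * f i b := by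
  rw [Matrix.mul_apply, Fintype.sum_prod_type]
  refine Finset.sum_congr rfl fun i _ => ?_
  rw [Finset.sum_eq_single j]
  · simp [Matrix.kroneckerMap_apply]
  · intro b' _ hb; simp [Matrix.kroneckerMap_apply, Matrix.one_apply_ne hb]
  · simp

theorem mul_one_kron {B : Type*} [Fintype B] (M : Matrix A (J × J') R) (f : Matrix J' B R)
    (a : A) (b : B) (i : J) :
    (M * ((1 : Matrix J J R) ⊗ₖ f)) a (i, b) = ∑ j, M a (i, j) * f j b := by
  rw [Matrix.mul_apply, Fintype.sum_prod_type, Finset.sum_eq_single i]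
  · refine Finset.sum_congr rfl fun j _ => ?_
    simp [Matrix.kroneckerMap_apply]
  · intro b' _ hb
    refine Finset.sum_eq_zero fun j _ => ?_
    simp [Matrix.kroneckerMap_apply, Matrix.one_apply_ne hb]
  · simp

theorem sg_mul_comm_add_one (m n : ℤ) : sg ((m + 1) * n) = sg n * sg (m * n) := by
  rw [← sg_add]; congr 1; ring

theorem sg_mul_add_one (m n : ℤ) : sg (m * (n + 1)) = sg m * sg (m * n) := by
  rw [← sg_add]; congr 1; ring

theorem tensor_d_apply (K : Cx R J) (L : Cx R J') (i i' : J) (j j' : J') :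
    (K.tensor L).d (i, j) (i', j') = K.d i i' * (if j = j' then 1 else 0) +
      (if i = i' then ((sg (K.deg i) : ℤ) : R) else 0) * L.d j j' := by
  rw [tensor_d, Matrix.add_apply, Matrix.kroneckerMap_apply, Matrix.kroneckerMap_apply,
    Matrix.one_apply, e, ep, Matrix.diagonal_apply]

theorem cl_sw (K : Cx R J) (L : Cx R J') : Cl (K.tensor L) (L.tensor K) 0 (sw K L) := by
  refine Cl.mk0 ?_ ?_
  · rintro ⟨x, y⟩ ⟨i, j⟩ h
    simp only [sw, Prod.mk.injEq]
    rw [if_neg]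
    rintro ⟨rfl, rfl⟩
    apply h
    show L.deg x + K.deg y = K.deg y + L.deg x + 0
    ring
  · ext ⟨x, y⟩ ⟨i, j⟩
    rw [mul_sw, sw_mul, tensor_d_apply, tensor_d_apply]
    have e1 : ∀ m : ℤ, (((sg m : ℤ) : R)) * ((sg m : ℤ) : R) = 1 := fun m => by
      rw [← Int.cast_mul, sg_mul_self, Int.cast_one]
    by_cases h1 : L.deg x = L.deg j + 1
    · by_cases h2 : K.deg y = K.deg i + 1
      · have hx : x ≠ j := by rintro rfl; omega
        have hy : y ≠ i := by rintro rfl; omega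
        simp [hx, hy]
      · rw [K.hmg y i h2]
        by_cases hy : y = i
        · subst hy
          rw [h1, sg_mul_add_one]
          push_cast
          simp only [if_true, mul_one, mul_zero, zero_mul, add_zero, zero_add]
          linear_combination (-(((sg (K.deg y * L.deg j) : ℤ) : R)) * L.d x j) * e1 (K.deg y)
        · simp [hy]
    · rw [L.hmg x j h1]
      by_cases h2 : K.deg y = K.deg i + 1
      · by_cases hx : x = j
        · subst hx
          rw [h2, sg_mul_comm_add_one]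
          push_cast
          simp only [if_true, mul_one, mul_zero, zero_mul, add_zero, zero_add]
          ring
        · simp [hx]
      · rw [K.hmg y i h2]; simp

theorem cl_asc (K : Cx R J) (L : Cx R J') (M : Cx R J'') :
    Cl ((K.tensor L).tensor M) (K.tensor (L.tensor M)) 0 (asc R J J' J'') := by
  refine Cl.mk0 ?_ ?_
  · rintro ⟨x, y, z⟩ ⟨⟨i, j⟩, l⟩ h
    simp only [asc, Prod.mk.injEq]
    rw [if_neg]
    rintro ⟨rfl, rfl, rfl⟩
    apply h
    show K.deg x + (L.deg y + M.deg z) = K.deg x + L.deg y + M.deg z + 0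
    ring
  · ext ⟨x, y, z⟩ ⟨⟨i, j⟩, l⟩
    rw [mul_asc, asc_mul, tensor_d_apply, tensor_d_apply, tensor_d_apply, tensor_d_apply]
    simp only [Prod.mk.injEq]
    have h1 : sg ((K.tensor L).deg (x, y)) = sg (K.deg x) * sg (L.deg y) := by
      rw [tensor_deg, sg_add]
    rw [h1]
    by_cases hx : x = i <;> by_cases hy : y = j <;> by_cases hz : z = l <;>
      simp [hx, hy, hz] <;> ring

theorem cl_asi (K : Cx R J) (L : Cx R J') (M : Cx R J'') :
    Cl (K.tensor (L.tensor M)) ((K.tensor L).tensor M) 0 (asi R J J' J'') := by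
  refine Cl.mk0 ?_ ?_
  · rintro ⟨⟨x, y⟩, z⟩ ⟨i, j, l⟩ h
    simp only [asi, Prod.mk.injEq]
    rw [if_neg]
    rintro ⟨⟨rfl, rfl⟩, rfl⟩
    apply h
    show K.deg x + L.deg y + M.deg z = K.deg x + (L.deg y + M.deg z) + 0
    ring
  · ext ⟨⟨x, y⟩, z⟩ ⟨i, j, l⟩
    rw [mul_asi, asi_mul, tensor_d_apply, tensor_d_apply, tensor_d_apply, tensor_d_apply]
    simp only [Prod.mk.injEq]
    have h1 : sg ((K.tensor L).deg (x, y)) = sg (K.deg x) * sg (L.deg y) := by
      rw [tensor_deg, sg_add]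
    rw [h1]
    by_cases hx : x = i <;> by_cases hy : y = j <;> by_cases hz : z = l <;>
      simp [hx, hy, hz] <;> ring

/-! ### action on decomposable vectors -/

theorem kron_vk {B B' : Type*} [Fintype B] [Fintype B'] (f : Matrix B J R) (g : Matrix B' J' R)
    (x : J → R) (y : J' → R) : (f ⊗ₖ g) *ᵥ vk x y = vk (f *ᵥ x) (g *ᵥ y) :=
  kron_mulVec_tv f g x y

theorem sw_vk (K : Cx R J) (L : Cx R J') {x : J → R} {y : J' → R} (hx : x ∈ K.Z0)
    (hy : y ∈ L.Z0) : sw K L *ᵥ vk x y = vk y x := by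
  ext ⟨b, b'⟩
  rw [Matrix.mulVec, dotProduct, Finset.sum_eq_single (b', b)]
  · simp only [sw, vk, tv, if_true]
    by_cases h1 : K.deg b' = 0
    · by_cases h2 : L.deg b = 0
      · rw [h1, zero_mul, sg_zero, Int.cast_one, one_mul, mul_comm]
      · rw [hy.1 b h2]; simp
    · rw [hx.1 b' h1]; simp
  · rintro ⟨i, j⟩ _ hb
    have : ¬ ((b, b') = (j, i)) := by
      intro h; apply hb; rw [Prod.mk.injEq] at h ⊢; exact ⟨h.2.symm, h.1.symm⟩
    simp [sw, this]
  · simp

theorem asc_vk (x : J → R) (y : J' → R) (z : J'' → R) :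
    asc R J J' J'' *ᵥ vk (vk x y) z = vk x (vk y z) := by
  ext ⟨i, j, l⟩
  rw [Matrix.mulVec, dotProduct, Finset.sum_eq_single ((i, j), l)]
  · simp [asc, vk, tv, mul_assoc]
  · rintro ⟨⟨b, b'⟩, b''⟩ _ hb
    have : ¬ ((i, (j, l)) = (b, (b', b''))) := by
      intro h; apply hb
      simp only [Prod.mk.injEq] at h ⊢
      exact ⟨⟨h.1.symm, h.2.1.symm⟩, h.2.2.symm⟩
    simp only [asc, this, if_false, zero_mul]
  · simp

theorem asi_vk (x : J → R) (y : J' → R) (z : J'' → R) :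
    asi R J J' J'' *ᵥ vk x (vk y z) = vk (vk x y) z := by
  ext ⟨⟨i, j⟩, l⟩
  rw [Matrix.mulVec, dotProduct, Finset.sum_eq_single (i, (j, l))]
  · simp [asi, vk, tv, mul_assoc]
  · rintro ⟨b, ⟨b', b''⟩⟩ _ hb
    have : ¬ (((i, j), l) = ((b, b'), b'')) := by
      intro h; apply hb
      simp only [Prod.mk.injEq] at h ⊢
      exact ⟨h.1.1.symm, h.1.2.symm, h.2.symm⟩
    simp only [asi, this, if_false, zero_mul]
  · simp

theorem vk_mem (K : Cx R J) (L : Cx R J') {x : J → R} {y : J' → R} (hx : x ∈ K.Z0)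
    (hy : y ∈ L.Z0) : vk x y ∈ (K.tensor L).Z0 := by
  refine ⟨?_, ?_⟩
  · rintro ⟨i, j⟩ h
    by_cases h1 : K.deg i = 0
    · have h2 : L.deg j ≠ 0 := by
        intro h2; apply h; show K.deg i + L.deg j = 0; rw [h1, h2, add_zero]
      simp [vk, tv, hy.1 j h2]
    · simp [vk, tv, hx.1 i h1]
  · rw [tensor_d, Matrix.add_mulVec, kron_vk, kron_vk, hx.2, hy.2]
    ext ⟨i, j⟩; simp [vk, tv]

end Cx

end LicciCx

end

section

/-!
# Lifting and uniqueness

If `K` is contractible outside degree `0` up to the scalar `c ≠ 0`, the projector `pr` has columns in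
`Z0`. A closed map `f` is, up to the scalar `c ^ 2`, homotopic to `f pr pr`, so it is a boundary up to a
scalar if `f` maps the columns of `pr` into `BT`; the scalar is removed by `depth_torsion`. For the lifting
theorem take `t i = Φ i * pr i` and apply `depth_extend`.
-/

set_option autoImplicit false
set_option linter.unusedSectionVars false

open Matrix Kronecker RingTheory.Sequence

namespace LicciCx

namespace Cx

universe u

variable {R : Type u} [CommRing R] [IsDomain R] {J J₁ J₂ J₃ J₄ J' : Type}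
  [Fintype J] [Fintype J₁] [Fintype J₂] [Fintype J₃] [Fintype J₄] [Fintype J']
  [DecidableEq J] [DecidableEq J₁] [DecidableEq J₂] [DecidableEq J₃] [DecidableEq J₄] [DecidableEq J']

/-! ## Generalities -/

theorem B0_le_BT (K : Cx R J) : K.B0 ≤ K.BT := fun z hz => ⟨1, one_ne_zero, by rwa [one_smul]⟩

theorem B0_le_Z0 (K : Cx R J) : K.B0 ≤ K.Z0 := by
  rintro z ⟨w, hw, rfl⟩
  refine ⟨fun j hj => ?_, by rw [Matrix.mulVec_mulVec, K.sq, Matrix.zero_mulVec]⟩
  rw [Matrix.mulVec, dotProduct]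
  refine Finset.sum_eq_zero fun k _ => ?_
  by_cases hk : K.deg k = -1
  · rw [K.hmg j k (by rw [hk]; simpa using hj), zero_mul]
  · rw [hw k hk, mul_zero]

theorem BT_sat {K : Cx R J} {c : R} (hc : c ≠ 0) {v : J → R} (h : c • v ∈ K.BT) : v ∈ K.BT := by
  obtain ⟨c', hc', h'⟩ := h
  exact ⟨c' * c, mul_ne_zero hc' hc, by rwa [mul_smul]⟩

theorem pr_col (K : Cx R J) {c : R} {h : Matrix J J R} (hh : IsCon K c h) (j : J) :
    (fun i => K.pr c h i j) ∈ K.Z0 := by
  refine ⟨fun i hi => hh.sup i j (by rintro ⟨h1, -⟩; exact hi h1), ?_⟩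
  have h1 := hh.d_pr
  ext i
  have := congrFun (congrFun h1 i) j
  rwa [Matrix.mul_apply] at this

theorem mulVec_pr (K : Cx R J) (c : R) (h : Matrix J J R) {z : J → R} (hz : z ∈ K.Z0) :
    K.pr c h *ᵥ z = c • z - K.d *ᵥ (h *ᵥ z) := by
  rw [pr, Matrix.sub_mulVec, Matrix.add_mulVec, Matrix.smul_mulVec, Matrix.one_mulVec,
    ← Matrix.mulVec_mulVec, ← Matrix.mulVec_mulVec, hz.2, Matrix.mulVec_zero, add_zero]

theorem dh_mem (K : Cx R J) {c : R} {h : Matrix J J R} (hh : IsCon K c h) {z : J → R}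
    (hz : z ∈ K.Z0) : K.d *ᵥ (h *ᵥ z) ∈ K.B0 := by
  refine ⟨h *ᵥ z, fun j hj => ?_, rfl⟩
  rw [Matrix.mulVec, dotProduct]
  refine Finset.sum_eq_zero fun k _ => ?_
  by_cases hk : K.deg k = 0
  · rw [hh.hmg j k (by rw [hk]; simpa using hj), zero_mul]
  · rw [hz.1 k hk, mul_zero]

theorem cl_mulVec_BT {K : Cx R J} {L : Cx R J'} {f : Matrix J' J R} (hf : Cl K L 0 f)
    {v : J → R} (hv : v ∈ K.BT) : f *ᵥ v ∈ L.BT := by
  obtain ⟨c, hc, w, hw, h⟩ := hv
  refine ⟨c, hc, f *ᵥ w, fun j hj => ?_, ?_⟩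
  · rw [Matrix.mulVec, dotProduct]
    refine Finset.sum_eq_zero fun k _ => ?_
    by_cases hk : K.deg k = -1
    · rw [hf.hmg j k (by rw [hk]; simpa using hj), zero_mul]
    · rw [hw k hk, mul_zero]
  · rw [Matrix.mulVec_mulVec, hf.comm0, ← Matrix.mulVec_mulVec, h, Matrix.mulVec_smul]

theorem bd_mulVec_BT {K : Cx R J} {L : Cx R J'} {f : Matrix J' J R} (hf : Bd K L 0 f)
    {v : J → R} (hv : v ∈ K.Z0) : f *ᵥ v ∈ L.BT := by
  obtain ⟨s, hs, rfl⟩ := hf
  refine B0_le_BT L ⟨s *ᵥ v, fun j hj => ?_, ?_⟩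
  · rw [Matrix.mulVec, dotProduct]
    refine Finset.sum_eq_zero fun k _ => ?_
    by_cases hk : K.deg k = 0
    · rw [hs j k (by rw [hk]; simpa using hj), zero_mul]
    · rw [hv.1 k hk, mul_zero]
  · rw [Matrix.add_mulVec, Matrix.smul_mulVec, ← Matrix.mulVec_mulVec, ← Matrix.mulVec_mulVec,
      hv.2, Matrix.mulVec_zero, smul_zero, add_zero]

theorem hom_hd (K : Cx R J) : ∀ i j, K.d i j ≠ 0 → K.deg i = K.deg j + 1 := by
  intro i j h
  by_contra h1
  exact h (K.hmg i j h1)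

/-- a closed map a multiple of which is a boundary is a boundary -/
theorem bd_of_smul (a : Fin 6 → R) (ha : IsWeaklyRegular R (List.ofFn a))
    {K : Cx R J} {L : Cx R J'} (hK : ∀ i, UE K (a i)) (hL : ∀ i, UE L (a i))
    (hdeg : ∀ i j, -5 ≤ L.deg i - K.deg j) {f : Matrix J' J R} (hf : IsHmg K L 0 f) {s : R}
    (hs : s ≠ 0) (h : Bd K L 0 (s • f)) : Bd K L 0 f := by
  obtain ⟨v, hv, hv2⟩ := bd_iff.1 h
  have hvec : vec (s • f) = s • vec f := rfl
  obtain ⟨w, hw, hw2⟩ := Pool.Agent.Licci.depth_torsion a ha (hom_hd (Hom K L)) (Hom K L).sq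
    (fun i => (UE.iff_licci _ _).1 (UE.hom (hK i) (hL i))) 5
    (by
      rintro ⟨i, j⟩
      have := hdeg i j
      rw [Hom_deg]
      simpa using this) (by norm_num) (vec f)
    (by
      intro x hx
      by_contra h1
      exact hx (vec_hmg.2 hf x h1)) s (mem_nonZeroDivisors_of_ne_zero hs) v
    (by rw [hv2, hvec])
  refine bd_iff.2 ⟨w, ?_, hw2.symm⟩
  intro x hx
  by_contra h1
  exact hx (by simpa using hw x h1)

/-- the key lemma: a closed map which maps the columns of the projector into `BT` is a boundary -/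
theorem uniq_core (a : Fin 6 → R) (ha : IsWeaklyRegular R (List.ofFn a))
    {K : Cx R J} {L : Cx R J'} (hK : ∀ i, UE K (a i)) (hL : ∀ i, UE L (a i))
    (hdeg : ∀ i j, -5 ≤ L.deg i - K.deg j) {f : Matrix J' J R} (hf : Cl K L 0 f) {c : R}
    (hc : c ≠ 0) {h : Matrix J J R} (hh : IsCon K c h)
    (hcol : ∀ j, f *ᵥ (fun i => K.pr c h i j) ∈ L.BT) : Bd K L 0 f := by
  choose C hC w hw hw2 using hcol
  set P := K.pr c h with hP
  set s : Matrix J' J R := Matrix.of fun i j =>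
    if K.deg j = 0 then (∏ k ∈ Finset.univ.erase j, C k) * w j i else 0 with hs
  set T := ∏ k, C k with hT
  have hT0 : T ≠ 0 := Finset.prod_ne_zero_iff.2 fun k _ => hC k
  have hshmg : IsHmg K L (-1) s := by
    intro i j hij
    rw [hs, Matrix.of_apply]
    by_cases hj : K.deg j = 0
    · rw [if_pos hj, hw j i (by intro h1; apply hij; rw [h1, hj]; rfl), mul_zero]
    · rw [if_neg hj]
  have hds : L.d * s = T • (f * P) := by
    ext i j
    rw [Matrix.mul_apply, Matrix.smul_apply, Matrix.mul_apply, smul_eq_mul]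
    by_cases hj : K.deg j = 0
    · have h1 := congrFun (hw2 j) i
      rw [Matrix.mulVec, dotProduct, Pi.smul_apply, Matrix.mulVec, dotProduct, smul_eq_mul] at h1
      have h2 : T = (∏ k ∈ Finset.univ.erase j, C k) * C j := by
        rw [hT, Finset.prod_erase_mul _ _ (Finset.mem_univ j)]
      rw [h2, mul_assoc, ← h1, Finset.mul_sum]
      refine Finset.sum_congr rfl fun k _ => ?_
      rw [hs, Matrix.of_apply, if_pos hj]
      ring
    · have h3 : ∀ k, P k j = 0 := fun k => hh.sup k j (by rintro ⟨-, h4⟩; exact hj h4)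
      rw [Finset.sum_eq_zero, Finset.sum_eq_zero, mul_zero]
      · intro k _; rw [h3, mul_zero]
      · intro k _; rw [hs, Matrix.of_apply, if_neg hj, mul_zero]
  have hid : c • (1 : Matrix J J R) = P + (K.d * h + h * K.d) := by
    rw [hP, pr]; abel
  have hPd : P * K.d = 0 := hh.pr_d
  have hdP : K.d * P = 0 := hh.d_pr
  have h1 : c • f = f * P + (L.d * (f * h) + f * h * K.d) := by
    calc c • f = f * (c • (1 : Matrix J J R)) := by rw [Matrix.mul_smul, Matrix.mul_one]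
      _ = _ := by
        rw [hid, Matrix.mul_add, Matrix.mul_add, ← Matrix.mul_assoc f K.d h, ← hf.comm0,
          Matrix.mul_assoc L.d, ← Matrix.mul_assoc f h]
  have h2 : c • (f * P) = f * P * P + f * P * h * K.d := by
    calc c • (f * P) = f * P * (c • (1 : Matrix J J R)) := by rw [Matrix.mul_smul, Matrix.mul_one]
      _ = _ := by
        rw [hid, Matrix.mul_add, Matrix.mul_add, ← Matrix.mul_assoc (f * P) K.d h,
          Matrix.mul_assoc f P K.d, hPd, Matrix.mul_zero, Matrix.zero_mul, zero_add,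
          ← Matrix.mul_assoc (f * P) h]
  have hfP : IsHmg K L 0 (f * P) := hf.hmg.mul' (hh.sup.hmg : IsHmg K K 0 P) (by norm_num)
  refine bd_of_smul a ha hK hL hdeg hf.hmg (s := T * (c * c)) (mul_ne_zero hT0 (mul_ne_zero hc hc)) ?_
  refine ⟨s * P + (T • (f * P * h) + (T * c) • (f * h)), ?_, ?_⟩
  · have e1 : IsHmg K L (0 - 1) (s * P) := hshmg.mul' (hh.sup.hmg : IsHmg K K 0 P) (by norm_num)
    have e2 : IsHmg K L (0 - 1) (f * P * h) := hfP.mul' hh.hmg (by norm_num)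
    have e3 : IsHmg K L (0 - 1) (f * h) := hf.hmg.mul' hh.hmg (by norm_num)
    exact e1.add ((e2.smul T).add (e3.smul (T * c)))
  · have e1 : L.d * (s * P) = T • (f * P * P) := by
      rw [← Matrix.mul_assoc, hds, Matrix.smul_mul]
    have e2 : s * P * K.d = 0 := by rw [Matrix.mul_assoc, hPd, Matrix.mul_zero]
    have e3 : L.d * (f * P * h) = 0 := by
      rw [← Matrix.mul_assoc, ← Matrix.mul_assoc, hf.comm0, Matrix.mul_assoc f, hdP,
        Matrix.mul_zero, Matrix.zero_mul]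
    rw [Matrix.mul_add, Matrix.mul_add, Matrix.add_mul, Matrix.add_mul, e1, e2, Matrix.mul_smul,
      Matrix.mul_smul, e3, Matrix.smul_mul, Matrix.smul_mul, sg_zero, Int.cast_one, one_smul, smul_zero,
      mul_smul, mul_smul, h1, smul_add, h2]
    module

/-- the projector of a tensor product -/
theorem pr_tensor {K : Cx R J} {L : Cx R J'} {c c' : R} {h : Matrix J J R} {h' : Matrix J' J' R}
    (hh : IsCon K c h) (_hh' : IsCon L c' h') :
    (K.tensor L).pr (c * c') (c' • (h ⊗ₖ (1 : Matrix J' J' R)) + K.pr c h ⊗ₖ h') =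
      K.pr c h ⊗ₖ L.pr c' h' := by
  have hp : K.e * K.pr c h = K.pr c h := by
    ext i j
    simp only [ep, Matrix.diagonal_mul]
    by_cases h0 : K.deg i = 0 ∧ K.deg j = 0
    · rw [h0.1, sg_zero]; simp
    · rw [show K.pr c h i j = 0 from hh.sup i j h0, mul_zero]
  have hp' : K.pr c h * K.e = K.pr c h := by
    ext i j
    simp only [ep, Matrix.mul_diagonal]
    by_cases h0 : K.deg i = 0 ∧ K.deg j = 0
    · rw [h0.2, sg_zero]; simp
    · rw [show K.pr c h i j = 0 from hh.sup i j h0, zero_mul]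
  have heh : K.e * h = -(h * K.e) := ep_mul_odd' hh.hmg
  have h1 : K.d * h + h * K.d = c • (1 : Matrix J J R) - K.pr c h := by
    rw [pr]; abel
  have h2 : L.d * h' + h' * L.d = c' • (1 : Matrix J' J' R) - L.pr c' h' := by
    rw [pr]; abel
  have e1 : (K.tensor L).d * (h ⊗ₖ (1 : Matrix J' J' R)) + (h ⊗ₖ (1 : Matrix J' J' R)) * (K.tensor L).d
      = (c • (1 : Matrix J J R) - K.pr c h) ⊗ₖ (1 : Matrix J' J' R) := by
    rw [tensor_d, Matrix.add_mul, Matrix.mul_add, ← Matrix.mul_kronecker_mul,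
      ← Matrix.mul_kronecker_mul, ← Matrix.mul_kronecker_mul, ← Matrix.mul_kronecker_mul,
      heh, ← h1, add_kron, neg_kron]
    simp only [Matrix.mul_one, Matrix.one_mul]
    abel
  have e2 : (K.tensor L).d * (K.pr c h ⊗ₖ h') + (K.pr c h ⊗ₖ h') * (K.tensor L).d
      = K.pr c h ⊗ₖ (c' • (1 : Matrix J' J' R) - L.pr c' h') := by
    rw [tensor_d, Matrix.add_mul, Matrix.mul_add, ← Matrix.mul_kronecker_mul,
      ← Matrix.mul_kronecker_mul, ← Matrix.mul_kronecker_mul, ← Matrix.mul_kronecker_mul,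
      hh.d_pr, hh.pr_d, hp, hp', zero_kron, zero_kron, zero_add, zero_add, ← h2, kron_add]
  have e3 : (K.tensor L).d * (c' • (h ⊗ₖ (1 : Matrix J' J' R)) + K.pr c h ⊗ₖ h') +
      (c' • (h ⊗ₖ (1 : Matrix J' J' R)) + K.pr c h ⊗ₖ h') * (K.tensor L).d =
      c' • ((K.tensor L).d * (h ⊗ₖ (1 : Matrix J' J' R)) + (h ⊗ₖ (1 : Matrix J' J' R)) * (K.tensor L).d)
      + ((K.tensor L).d * (K.pr c h ⊗ₖ h') + (K.pr c h ⊗ₖ h') * (K.tensor L).d) := by
    rw [Matrix.mul_add, Matrix.add_mul, Matrix.mul_smul, Matrix.smul_mul, smul_add]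
    abel
  have e0 : (K.tensor L).pr (c * c') (c' • (h ⊗ₖ (1 : Matrix J' J' R)) + K.pr c h ⊗ₖ h') =
      (c * c') • (1 : Matrix (J × J') (J × J') R) -
        ((K.tensor L).d * (c' • (h ⊗ₖ (1 : Matrix J' J' R)) + K.pr c h ⊗ₖ h') +
          (c' • (h ⊗ₖ (1 : Matrix J' J' R)) + K.pr c h ⊗ₖ h') * (K.tensor L).d) := rfl
  rw [e0, e3, e1, e2, sub_kron, kron_sub, smul_kron, kron_smul, Matrix.one_kronecker_one,
    smul_sub, smul_smul, mul_comm c' c]
  abel

/-- the decomposable vectors of two cocycles are cocycles -/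
theorem vk_mem_Z0 {K : Cx R J} {L : Cx R J'} {z : J → R} {z' : J' → R} (hz : z ∈ K.Z0)
    (hz' : z' ∈ L.Z0) : vk z z' ∈ (K.tensor L).Z0 := by
  refine ⟨fun x hx => ?_, ?_⟩
  · rw [tensor_deg] at hx
    show z x.1 * z' x.2 = 0
    by_cases h : K.deg x.1 = 0
    · have h' : L.deg x.2 ≠ 0 := by
        intro h'; apply hx; rw [h, h']; rfl
      rw [hz'.1 _ h', mul_zero]
    · rw [hz.1 _ h, zero_mul]
  · rw [tensor_d, Matrix.add_mulVec, kron_mulVec_tv, kron_mulVec_tv, hz.2, hz'.2, zero_tv, tv_zero,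
      add_zero]

theorem tensor_pr_col {K : Cx R J} {L : Cx R J'} {c c' : R} {h : Matrix J J R}
    {h' : Matrix J' J' R} (hh : IsCon K c h) (hh' : IsCon L c' h') (x : J × J') :
    (fun i => (K.tensor L).pr (c * c') (c' • (h ⊗ₖ (1 : Matrix J' J' R)) + K.pr c h ⊗ₖ h') i x) =
      vk (fun i => K.pr c h i x.1) (fun i => L.pr c' h' i x.2) := by
  rw [pr_tensor hh hh']
  rfl

/-! ## The criterion for the dual -/

/-- the pairing criterion for the dual -/
theorem mem_BT_dual {K : Cx R J} {a : R} (ha : a ≠ 0) (hK : UE K a) {l : J → R}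
    (hl : l ∈ K.dual.Z0) (h : ∀ z ∈ K.Z0, l ⬝ᵥ z = 0) : l ∈ K.dual.BT := by
  obtain ⟨N, k, hk⟩ := hK
  set c := a ^ N with hc
  have hc0 : c ≠ 0 := pow_ne_zero N ha
  have hl0 : ∀ j, K.deg j ≠ 0 → l j = 0 := by
    intro j hj
    exact hl.1 j (by rw [dual_deg]; simpa using hj)
  have hle : l ᵥ* K.e = l := by
    funext j
    show (l ᵥ* Matrix.diagonal fun j => ((sg (K.deg j) : ℤ) : R)) j = l j
    rw [Matrix.vecMul_diagonal]
    by_cases hj : K.deg j = 0
    · rw [hj, sg_zero]; simp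
    · rw [hl0 j hj, zero_mul]
  have hld : l ᵥ* K.d = 0 := by
    have h1 := hl.2
    rw [dual_d, Matrix.neg_mulVec, Matrix.mulVec_transpose, ← Matrix.vecMul_vecMul, hle,
      neg_eq_zero] at h1
    exact h1
  have hlp : l ᵥ* K.pr c k = 0 := by
    funext j
    exact h _ (pr_col K hk j)
  have hcl : c • l = (l ᵥ* k) ᵥ* K.d := by
    have h2 : l ᵥ* (c • (1 : Matrix J J R)) = l ᵥ* (K.pr c k + (K.d * k + k * K.d)) := by
      rw [pr]; congr 1; abel
    rw [Matrix.vecMul_smul, Matrix.vecMul_one, Matrix.vecMul_add, Matrix.vecMul_add, hlp, zero_add,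
      ← Matrix.vecMul_vecMul, hld, Matrix.zero_vecMul, zero_add, ← Matrix.vecMul_vecMul] at h2
    exact h2
  refine ⟨c, hc0, -((l ᵥ* k) ᵥ* K.e), ?_, ?_⟩
  · intro j hj
    rw [dual_deg] at hj
    show -((l ᵥ* k) ᵥ* Matrix.diagonal fun j => ((sg (K.deg j) : ℤ) : R)) j = 0
    rw [Matrix.vecMul_diagonal]
    have h3 : (l ᵥ* k) j = 0 := by
      rw [Matrix.vecMul, dotProduct]
      refine Finset.sum_eq_zero fun i _ => ?_
      by_cases hi : K.deg i = 0
      · rw [hk.hmg i j (by rw [hi]; intro h4; apply hj; omega), mul_zero]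
      · rw [hl0 i hi, zero_mul]
    rw [h3, zero_mul, neg_zero]
  · rw [dual_d, Matrix.neg_mulVec, Matrix.mulVec_neg, neg_neg, Matrix.mulVec_transpose,
      ← Matrix.vecMul_vecMul, Matrix.vecMul_vecMul (l ᵥ* k) K.e K.e, e_mul_self, Matrix.vecMul_one, hcl]

/-! ## Uniqueness -/

/-- uniqueness, one factor -/
theorem uniq1 (a : Fin 6 → R) (ha : IsWeaklyRegular R (List.ofFn a)) (ha0 : ∀ i, a i ≠ 0)
    {K : Cx R J} {L : Cx R J'} (hK : ∀ i, UE K (a i)) (hL : ∀ i, UE L (a i))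
    (hdeg : ∀ i j, -5 ≤ L.deg i - K.deg j) {f : Matrix J' J R} (hf : Cl K L 0 f)
    (h : ∀ z ∈ K.Z0, f *ᵥ z ∈ L.BT) : Bd K L 0 f := by
  obtain ⟨N, k, hk⟩ := hK 0
  exact uniq_core a ha hK hL hdeg hf (pow_ne_zero N (ha0 0)) hk fun j => h _ (pr_col K hk j)

/-- uniqueness, two factors -/
theorem uniq2 (a : Fin 6 → R) (ha : IsWeaklyRegular R (List.ofFn a)) (ha0 : ∀ i, a i ≠ 0)
    {K₁ : Cx R J₁} {K₂ : Cx R J₂} {L : Cx R J'} (hK₁ : ∀ i, UE K₁ (a i))
    (hK₂ : ∀ i, UE K₂ (a i)) (hL : ∀ i, UE L (a i))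
    (hdeg : ∀ i j k, -5 ≤ L.deg i - (K₁.deg j + K₂.deg k))
    {f : Matrix J' (J₁ × J₂) R} (hf : Cl (K₁.tensor K₂) L 0 f)
    (h : ∀ z₁ ∈ K₁.Z0, ∀ z₂ ∈ K₂.Z0, f *ᵥ vk z₁ z₂ ∈ L.BT) : Bd (K₁.tensor K₂) L 0 f := by
  obtain ⟨N₁, k₁, hk₁⟩ := hK₁ 0
  obtain ⟨N₂, k₂, hk₂⟩ := hK₂ 0
  refine uniq_core a ha (fun i => (hK₁ i).tensor (hK₂ i)) hL (fun i x => hdeg i x.1 x.2) hf
    (mul_ne_zero (pow_ne_zero N₁ (ha0 0)) (pow_ne_zero N₂ (ha0 0))) (hk₁.tensor hk₂) fun x => ?_
  rw [tensor_pr_col hk₁ hk₂]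
  exact h _ (pr_col K₁ hk₁ _) _ (pr_col K₂ hk₂ _)

/-- uniqueness, three factors -/
theorem uniq3 (a : Fin 6 → R) (ha : IsWeaklyRegular R (List.ofFn a)) (ha0 : ∀ i, a i ≠ 0)
    {K₁ : Cx R J₁} {K₂ : Cx R J₂} {K₃ : Cx R J₃} {L : Cx R J'} (hK₁ : ∀ i, UE K₁ (a i))
    (hK₂ : ∀ i, UE K₂ (a i)) (hK₃ : ∀ i, UE K₃ (a i)) (hL : ∀ i, UE L (a i))
    (hdeg : ∀ i j k l, -5 ≤ L.deg i - (K₁.deg j + K₂.deg k + K₃.deg l))
    {f : Matrix J' ((J₁ × J₂) × J₃) R} (hf : Cl ((K₁.tensor K₂).tensor K₃) L 0 f)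
    (h : ∀ z₁ ∈ K₁.Z0, ∀ z₂ ∈ K₂.Z0, ∀ z₃ ∈ K₃.Z0, f *ᵥ vk (vk z₁ z₂) z₃ ∈ L.BT) :
    Bd ((K₁.tensor K₂).tensor K₃) L 0 f := by
  obtain ⟨N₁, k₁, hk₁⟩ := hK₁ 0
  obtain ⟨N₂, k₂, hk₂⟩ := hK₂ 0
  obtain ⟨N₃, k₃, hk₃⟩ := hK₃ 0
  refine uniq_core a ha (fun i => ((hK₁ i).tensor (hK₂ i)).tensor (hK₃ i)) hL
    (fun i x => hdeg i x.1.1 x.1.2 x.2) hf
    (mul_ne_zero (mul_ne_zero (pow_ne_zero N₁ (ha0 0)) (pow_ne_zero N₂ (ha0 0)))
      (pow_ne_zero N₃ (ha0 0))) ((hk₁.tensor hk₂).tensor hk₃) fun x => ?_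
  rw [tensor_pr_col (hk₁.tensor hk₂) hk₃, tensor_pr_col hk₁ hk₂]
  exact h _ (pr_col K₁ hk₁ _) _ (pr_col K₂ hk₂ _) _ (pr_col K₃ hk₃ _)

/-- uniqueness, four factors -/
theorem uniq4 (a : Fin 6 → R) (ha : IsWeaklyRegular R (List.ofFn a)) (ha0 : ∀ i, a i ≠ 0)
    {K₁ : Cx R J₁} {K₂ : Cx R J₂} {K₃ : Cx R J₃} {K₄ : Cx R J₄} {L : Cx R J'}
    (hK₁ : ∀ i, UE K₁ (a i)) (hK₂ : ∀ i, UE K₂ (a i)) (hK₃ : ∀ i, UE K₃ (a i))
    (hK₄ : ∀ i, UE K₄ (a i)) (hL : ∀ i, UE L (a i))
    (hdeg : ∀ i j k l m, -5 ≤ L.deg i - (K₁.deg j + K₂.deg k + K₃.deg l + K₄.deg m))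
    {f : Matrix J' (((J₁ × J₂) × J₃) × J₄) R}
    (hf : Cl (((K₁.tensor K₂).tensor K₃).tensor K₄) L 0 f)
    (h : ∀ z₁ ∈ K₁.Z0, ∀ z₂ ∈ K₂.Z0, ∀ z₃ ∈ K₃.Z0, ∀ z₄ ∈ K₄.Z0,
      f *ᵥ vk (vk (vk z₁ z₂) z₃) z₄ ∈ L.BT) :
    Bd (((K₁.tensor K₂).tensor K₃).tensor K₄) L 0 f := by
  obtain ⟨N₁, k₁, hk₁⟩ := hK₁ 0
  obtain ⟨N₂, k₂, hk₂⟩ := hK₂ 0
  obtain ⟨N₃, k₃, hk₃⟩ := hK₃ 0
  obtain ⟨N₄, k₄, hk₄⟩ := hK₄ 0
  refine uniq_core a ha (fun i => (((hK₁ i).tensor (hK₂ i)).tensor (hK₃ i)).tensor (hK₄ i)) hL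
    (fun i x => hdeg i x.1.1.1 x.1.1.2 x.1.2 x.2) hf
    (mul_ne_zero (mul_ne_zero (mul_ne_zero (pow_ne_zero N₁ (ha0 0)) (pow_ne_zero N₂ (ha0 0)))
      (pow_ne_zero N₃ (ha0 0))) (pow_ne_zero N₄ (ha0 0)))
    (((hk₁.tensor hk₂).tensor hk₃).tensor hk₄) fun x => ?_
  rw [tensor_pr_col ((hk₁.tensor hk₂).tensor hk₃) hk₄, tensor_pr_col (hk₁.tensor hk₂) hk₃,
    tensor_pr_col hk₁ hk₂]
  exact h _ (pr_col K₁ hk₁ _) _ (pr_col K₂ hk₂ _) _ (pr_col K₃ hk₃ _) _ (pr_col K₄ hk₄ _)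

/-! ## Lifting -/

/-- compatible closed maps glue -/
theorem lift_core (a : Fin 6 → R) (ha : IsWeaklyRegular R (List.ofFn a)) (ha0 : ∀ i, a i ≠ 0)
    {K : Cx R J} {L : Cx R J'} (hK : ∀ i, UE K (a i)) (hL : ∀ i, UE L (a i))
    (hdeg : ∀ i j, -4 ≤ L.deg i - K.deg j) (N : Fin 6 → ℕ) (t : Fin 6 → Matrix J' J R)
    (ht : ∀ i, Cl K L 0 (t i)) (hk : ∀ i j, Bd K L 0 (a j ^ N j • t i - a i ^ N i • t j)) :
    ∃ f : Matrix J' J R, Cl K L 0 f ∧ ∀ i, Bd K L 0 (a i ^ N i • f - t i) := by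
  obtain ⟨t₀, ht₀, h₀⟩ := Pool.Agent.Licci.depth_extend a ha (hom_hd (Hom K L)) (Hom K L).sq
    (fun i => (UE.iff_licci _ _).1 (UE.hom (hK i) (hL i))) 4
    (by
      rintro ⟨i, j⟩
      have := hdeg i j
      rw [Hom_deg]
      simpa using this) (by norm_num) N (fun i => vec (t i))
    (by
      intro i x hx
      by_contra h1
      exact hx (vec_hmg.2 (ht i).hmg x h1))
    (by
      intro i j
      obtain ⟨v, hv, hv2⟩ := bd_iff.1 (hk i j)
      exact ⟨v, hv2.symm⟩)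
  have hbd : ∀ i, Bd K L 0 (a i ^ N i • (Matrix.of fun i j => t₀ (i, j)) - t i) := by
    intro i
    obtain ⟨w, hw, hw2⟩ := h₀ i
    refine bd_iff.2 ⟨w, ?_, hw2.symm⟩
    intro x hx
    by_contra h1
    exact hx (by simpa using hw x h1)
  refine ⟨Matrix.of fun i j => t₀ (i, j), ?_, hbd⟩
  have h1 : Cl K L 0 (a 0 ^ N 0 • (Matrix.of fun i j => t₀ (i, j) : Matrix J' J R)) := by
    have := (hbd 0).cl.add (ht 0)
    rwa [sub_add_cancel] at this
  have hc : a 0 ^ N 0 ≠ 0 := pow_ne_zero _ (ha0 0)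
  have hmg : IsHmg K L 0 (Matrix.of fun i j => t₀ (i, j) : Matrix J' J R) := by
    refine vec_hmg.1 ?_
    rw [vec_of]
    intro x hx
    by_contra h2
    exact hx (ht₀ x h2)
  refine Cl.mk0 hmg ?_
  have h2 := h1.comm0
  rw [Matrix.mul_smul, Matrix.smul_mul] at h2
  ext i j
  have h3 := congrFun (congrFun h2 i) j
  rw [Matrix.smul_apply, Matrix.smul_apply, smul_eq_mul, smul_eq_mul] at h3
  exact mul_left_cancel₀ hc h3

/-- lifting, with a set `Z` of test vectors which contains the columns of the projectors -/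
theorem lift_gen (a : Fin 6 → R) (ha : IsWeaklyRegular R (List.ofFn a)) (ha0 : ∀ i, a i ≠ 0)
    {K : Cx R J} {L : Cx R J'} (hK : ∀ i, UE K (a i)) (hL : ∀ i, UE L (a i))
    (hdeg : ∀ i j, -4 ≤ L.deg i - K.deg j) (Z : Set (J → R)) (hZ : ∀ z ∈ Z, z ∈ K.Z0)
    (M : Fin 6 → ℕ) (h : Fin 6 → Matrix J J R) (c : Fin 6 → R) (hcM : ∀ i, c i = a i ^ M i)
    (hh : ∀ i, IsCon K (c i) (h i)) (hcol : ∀ i j, (fun k => K.pr (c i) (h i) k j) ∈ Z)
    (N : Fin 6 → ℕ) (Φ : Fin 6 → Matrix J' J R)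
    (h1 : ∀ i, ∀ z ∈ Z, Φ i *ᵥ z ∈ L.Z0)
    (h2 : ∀ i, ∀ z ∈ Z, c i • Φ i *ᵥ z - Φ i *ᵥ (K.pr (c i) (h i) *ᵥ z) ∈ L.BT)
    (h3 : ∀ i j, ∀ z ∈ Z, a j ^ N j • Φ i *ᵥ z - a i ^ N i • Φ j *ᵥ z ∈ L.BT) :
    ∃ f : Matrix J' J R, Cl K L 0 f ∧ ∀ i, ∀ z ∈ Z, a i ^ N i • f *ᵥ z - Φ i *ᵥ z ∈ L.BT := by
  have hc0 : ∀ i, c i ≠ 0 := fun i => by rw [hcM]; exact pow_ne_zero _ (ha0 i)
  have hcolt : ∀ i j, (fun k => (Φ i * K.pr (c i) (h i)) k j) =
      Φ i *ᵥ (fun k => K.pr (c i) (h i) k j) := by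
    intro i j
    funext k
    rw [Matrix.mul_apply, Matrix.mulVec, dotProduct]
  have ht : ∀ i, Cl K L 0 (Φ i * K.pr (c i) (h i)) := by
    intro i
    refine Cl.mk0 ?_ ?_
    · intro k j hkj
      have e1 : (Φ i * K.pr (c i) (h i)) k j = (Φ i *ᵥ (fun k => K.pr (c i) (h i) k j)) k :=
        congrFun (hcolt i j) k
      rw [e1]
      by_cases hj : K.deg j = 0
      · exact (h1 i _ (hcol i j)).1 k (by intro h4; apply hkj; rw [h4, hj]; rfl)
      · have e2 : (fun k => K.pr (c i) (h i) k j) = 0 := by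
          funext k
          exact (hh i).sup k j (by rintro ⟨-, h4⟩; exact hj h4)
        rw [e2, Matrix.mulVec_zero, Pi.zero_apply]
    · rw [Matrix.mul_assoc, (hh i).pr_d, Matrix.mul_zero]
      ext k j
      have e3 := congrFun (h1 i _ (hcol i j)).2 k
      rw [← hcolt i j, Matrix.mulVec, dotProduct] at e3
      rw [Matrix.mul_apply]
      exact e3
  have hBT : ∀ i, ∀ z ∈ Z, c i • Φ i *ᵥ z - (Φ i * K.pr (c i) (h i)) *ᵥ z ∈ L.BT := by
    intro i z hz
    rw [← Matrix.mulVec_mulVec]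
    exact h2 i z hz
  have hpow : ∀ i, a i ^ (N i + M i) = c i * a i ^ N i := by
    intro i; rw [pow_add, hcM, mul_comm]
  have hk : ∀ i j, Bd K L 0 (a j ^ (N j + M j) • (Φ i * K.pr (c i) (h i)) -
      a i ^ (N i + M i) • (Φ j * K.pr (c j) (h j))) := by
    intro i j
    refine uniq_core a ha hK hL (fun i j => le_trans (by norm_num) (hdeg i j))
      (((ht i).smul _).sub ((ht j).smul _)) (hc0 0) (hh 0) fun l => ?_
    have hz := hcol 0 l
    generalize (fun k => K.pr (c 0) (h 0) k l) = z at hz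
    have e1 := L.BT.smul_mem (a j ^ (N j + M j)) (hBT i z hz)
    have e2 := L.BT.smul_mem (a i ^ (N i + M i)) (hBT j z hz)
    have e3 := L.BT.smul_mem (c i * c j) (h3 i j z hz)
    have e4 := L.BT.add_mem (L.BT.sub_mem e3 e1) e2
    have e5 : (a j ^ (N j + M j) • (Φ i * K.pr (c i) (h i)) -
      a i ^ (N i + M i) • (Φ j * K.pr (c j) (h j))) *ᵥ z =
        (c i * c j) • (a j ^ N j • Φ i *ᵥ z - a i ^ N i • Φ j *ᵥ z) -
        a j ^ (N j + M j) • (c i • Φ i *ᵥ z - (Φ i * K.pr (c i) (h i)) *ᵥ z) +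
        a i ^ (N i + M i) • (c j • Φ j *ᵥ z - (Φ j * K.pr (c j) (h j)) *ᵥ z) := by
      rw [Matrix.sub_mulVec, Matrix.smul_mulVec, Matrix.smul_mulVec, hpow, hpow]
      module
    rw [e5]
    exact e4
  obtain ⟨f, hf, hf2⟩ := lift_core a ha ha0 hK hL hdeg (fun i => N i + M i) _ ht hk
  refine ⟨f, hf, fun i z hz => BT_sat (hc0 i) ?_⟩
  have e1 := bd_mulVec_BT (hf2 i) (hZ z hz)
  have e2 := hBT i z hz
  have e3 := L.BT.sub_mem e1 e2
  have e4 : c i • (a i ^ N i • f *ᵥ z - Φ i *ᵥ z) =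
      (a i ^ (N i + M i) • f - Φ i * K.pr (c i) (h i)) *ᵥ z -
        (c i • Φ i *ᵥ z - (Φ i * K.pr (c i) (h i)) *ᵥ z) := by
    rw [Matrix.sub_mulVec, Matrix.smul_mulVec, hpow]
    module
  rw [e4]
  exact e3

/-- lifting, one factor; `Φ i` represents `(a i) ^ (N i)` times the map -/
theorem lift1 (a : Fin 6 → R) (ha : IsWeaklyRegular R (List.ofFn a)) (ha0 : ∀ i, a i ≠ 0)
    {K : Cx R J} {L : Cx R J'} (hK : ∀ i, UE K (a i)) (hL : ∀ i, UE L (a i))
    (hdeg : ∀ i j, -4 ≤ L.deg i - K.deg j) (N : Fin 6 → ℕ) (Φ : Fin 6 → Matrix J' J R)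
    (h1 : ∀ i, ∀ z ∈ K.Z0, Φ i *ᵥ z ∈ L.Z0) (h2 : ∀ i, ∀ z ∈ K.B0, Φ i *ᵥ z ∈ L.BT)
    (h3 : ∀ i j, ∀ z ∈ K.Z0, a j ^ N j • Φ i *ᵥ z - a i ^ N i • Φ j *ᵥ z ∈ L.BT) :
    ∃ f : Matrix J' J R, Cl K L 0 f ∧ ∀ i, ∀ z ∈ K.Z0, a i ^ N i • f *ᵥ z - Φ i *ᵥ z ∈ L.BT := by
  choose M k hk using hK
  refine lift_gen a ha ha0 (fun i => ⟨M i, k i, hk i⟩) hL hdeg (K.Z0 : Set (J → R)) (fun z hz => hz)
    M k (fun i => a i ^ M i) (fun _ => rfl) hk (fun i j => pr_col K (hk i) j) N Φ h1 ?_ h3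
  intro i z hz
  rw [mulVec_pr K _ _ hz, Matrix.mulVec_sub, Matrix.mulVec_smul, sub_sub_cancel]
  exact h2 i _ (dh_mem K (hk i) hz)

/-- lifting, two factors -/
theorem lift2 (a : Fin 6 → R) (ha : IsWeaklyRegular R (List.ofFn a)) (ha0 : ∀ i, a i ≠ 0)
    {K₁ : Cx R J₁} {K₂ : Cx R J₂} {L : Cx R J'} (hK₁ : ∀ i, UE K₁ (a i))
    (hK₂ : ∀ i, UE K₂ (a i)) (hL : ∀ i, UE L (a i))
    (hdeg : ∀ i j k, -4 ≤ L.deg i - (K₁.deg j + K₂.deg k)) (N : Fin 6 → ℕ)
    (Φ : Fin 6 → Matrix J' (J₁ × J₂) R)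
    (h1 : ∀ i, ∀ z₁ ∈ K₁.Z0, ∀ z₂ ∈ K₂.Z0, Φ i *ᵥ vk z₁ z₂ ∈ L.Z0)
    (h2 : ∀ i, ∀ z₁ ∈ K₁.B0, ∀ z₂ ∈ K₂.Z0, Φ i *ᵥ vk z₁ z₂ ∈ L.BT)
    (h2' : ∀ i, ∀ z₁ ∈ K₁.Z0, ∀ z₂ ∈ K₂.B0, Φ i *ᵥ vk z₁ z₂ ∈ L.BT)
    (h3 : ∀ i j, ∀ z₁ ∈ K₁.Z0, ∀ z₂ ∈ K₂.Z0,
      a j ^ N j • Φ i *ᵥ vk z₁ z₂ - a i ^ N i • Φ j *ᵥ vk z₁ z₂ ∈ L.BT) :
    ∃ f : Matrix J' (J₁ × J₂) R, Cl (K₁.tensor K₂) L 0 f ∧
      ∀ i, ∀ z₁ ∈ K₁.Z0, ∀ z₂ ∈ K₂.Z0,
        a i ^ N i • f *ᵥ vk z₁ z₂ - Φ i *ᵥ vk z₁ z₂ ∈ L.BT := by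
  have hUE : ∀ i, UE (K₁.tensor K₂) (a i) := fun i => (hK₁ i).tensor (hK₂ i)
  choose M₁ k₁ hk₁ using hK₁
  choose M₂ k₂ hk₂ using hK₂
  obtain ⟨f, hf, hf2⟩ := lift_gen a ha ha0 hUE hL
    (fun i x => hdeg i x.1 x.2) {v | ∃ z₁ ∈ K₁.Z0, ∃ z₂ ∈ K₂.Z0, v = vk z₁ z₂}
    (by rintro v ⟨z₁, h₁, z₂, h₂, rfl⟩; exact vk_mem_Z0 h₁ h₂)
    (fun i => M₁ i + M₂ i) _ (fun i => a i ^ M₁ i * a i ^ M₂ i) (fun i => (pow_add _ _ _).symm)
    (fun i => (hk₁ i).tensor (hk₂ i))
    (fun i x => ⟨_, pr_col K₁ (hk₁ i) x.1, _, pr_col K₂ (hk₂ i) x.2,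
      tensor_pr_col (hk₁ i) (hk₂ i) x⟩) N Φ
    (by rintro i v ⟨z₁, h₁, z₂, h₂, rfl⟩; exact h1 i z₁ h₁ z₂ h₂)
    (by
      rintro i v ⟨z₁, h₁, z₂, h₂, rfl⟩
      rw [pr_tensor (hk₁ i) (hk₂ i), kron_mulVec_tv]
      have e1 : K₁.pr (a i ^ M₁ i) (k₁ i) *ᵥ z₁ = a i ^ M₁ i • z₁ - K₁.d *ᵥ (k₁ i *ᵥ z₁) :=
        mulVec_pr K₁ _ _ h₁
      have e2 : K₂.pr (a i ^ M₂ i) (k₂ i) *ᵥ z₂ = a i ^ M₂ i • z₂ - K₂.d *ᵥ (k₂ i *ᵥ z₂) :=
        mulVec_pr K₂ _ _ h₂
      have hb₁ := dh_mem K₁ (hk₁ i) h₁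
      have hb₂ := dh_mem K₂ (hk₂ i) h₂
      rw [e1, e2]
      set b₁ := K₁.d *ᵥ (k₁ i *ᵥ z₁)
      set b₂ := K₂.d *ᵥ (k₂ i *ᵥ z₂)
      have hm₂ : a i ^ M₂ i • z₂ - b₂ ∈ K₂.Z0 :=
        K₂.Z0.sub_mem (K₂.Z0.smul_mem _ h₂) (B0_le_Z0 K₂ hb₂)
      have e3 : tv (a i ^ M₁ i • z₁ - b₁) (a i ^ M₂ i • z₂ - b₂) =
          (a i ^ M₁ i * a i ^ M₂ i) • vk z₁ z₂ - a i ^ M₁ i • vk z₁ b₂ -
            vk b₁ (a i ^ M₂ i • z₂ - b₂) := by
        funext x
        simp only [tv, Pi.sub_apply, Pi.smul_apply, smul_eq_mul]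
        ring
      rw [e3, Matrix.mulVec_sub, Matrix.mulVec_sub, Matrix.mulVec_smul, Matrix.mulVec_smul]
      have e4 := L.BT.add_mem (L.BT.smul_mem (a i ^ M₁ i) (h2' i z₁ h₁ b₂ hb₂))
        (h2 i b₁ hb₁ _ hm₂)
      convert e4 using 1
      abel)
    (by rintro i j v ⟨z₁, h₁, z₂, h₂, rfl⟩; exact h3 i j z₁ h₁ z₂ h₂)
  exact ⟨f, hf, fun i z₁ h₁ z₂ h₂ => hf2 i _ ⟨z₁, h₁, z₂, h₂, rfl⟩⟩

end Cx

end LicciCx

end

section

/-!
# The identities of the super Freudenthal triple system as closed maps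

`om : X ⊗ X → R` and `D : (X ⊗ X) ⊗ X → X` are closed of degree `0`.  The three maps `sf1`, `sf2`,
`sf3` express the symmetry, the cross relation and the invariance of the form; if they are
null-homotopic and `X` is minimal, the identities hold over the residue field.
-/

set_option autoImplicit false
set_option linter.unusedSectionVars false

open Matrix Kronecker

namespace LicciCore

open LicciCx LicciCx.Cx

section units

variable {R : Type*} [CommRing R] {J J' A : Type*} [Fintype J] [Fintype J'] [Fintype A]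
  [DecidableEq J] [DecidableEq J'] [DecidableEq A]

/-- the unit `R ⊗ K → K` -/
def lun (R : Type*) [CommRing R] (J : Type*) [DecidableEq J] : Matrix J (Unit × J) R :=
  fun m y => if m = y.2 then 1 else 0

/-- the unit `K ⊗ R → K` -/
def rn (R : Type*) [CommRing R] (J : Type*) [DecidableEq J] : Matrix J (J × Unit) R :=
  fun m y => if m = y.1 then 1 else 0

theorem lun_mul (M : Matrix (Unit × J) A R) (j : J) (a : A) : (lun R J * M) j a = M ((), j) a := by
  rw [Matrix.mul_apply, Finset.sum_eq_single ((), j)]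
  · simp [lun]
  · rintro ⟨⟨⟩, b⟩ _ hb
    have : j ≠ b := by rintro rfl; exact hb rfl
    simp [lun, this]
  · simp

theorem mul_lun (M : Matrix A J R) (a : A) (j : J) : (M * lun R J) a ((), j) = M a j := by
  rw [Matrix.mul_apply, Finset.sum_eq_single j]
  · simp [lun]
  · intro b _ hb
    simp [lun, hb]
  · simp

theorem rn_mul (M : Matrix (J × Unit) A R) (j : J) (a : A) : (rn R J * M) j a = M (j, ()) a := by
  rw [Matrix.mul_apply, Finset.sum_eq_single (j, ())]
  · simp [rn]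
  · rintro ⟨b, ⟨⟩⟩ _ hb
    have : j ≠ b := by rintro rfl; exact hb rfl
    simp [rn, this]
  · simp

theorem mul_rn (M : Matrix A J R) (a : A) (j : J) : (M * rn R J) a (j, ()) = M a j := by
  rw [Matrix.mul_apply, Finset.sum_eq_single j]
  · simp [rn]
  · intro b _ hb
    simp [rn, hb]
  · simp

theorem cl_lun (K : Cx R J) : Cl ((free R Unit 0).tensor K) K 0 (lun R J) := by
  refine Cl.mk0 ?_ ?_
  · rintro m ⟨⟨⟩, j⟩ h
    have : m ≠ j := by
      rintro rfl
      apply h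
      show K.deg m = 0 + K.deg m + 0
      ring
    simp [lun, this]
  · ext m ⟨⟨⟩, j⟩
    rw [mul_lun, lun_mul, tensor_d_apply]
    simp [sg_zero]

theorem cl_rn (K : Cx R J) : Cl (K.tensor (free R Unit 0)) K 0 (rn R J) := by
  refine Cl.mk0 ?_ ?_
  · rintro m ⟨j, ⟨⟩⟩ h
    have : m ≠ j := by
      rintro rfl
      apply h
      show K.deg m = K.deg m + 0 + 0
      ring
    simp [rn, this]
  · ext m ⟨j, ⟨⟩⟩
    rw [mul_rn, rn_mul, tensor_d_apply]
    simp

theorem lun_vk (u : Unit → R) (x : J → R) : lun R J *ᵥ vk u x = u () • x := by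
  ext j
  rw [Matrix.mulVec, dotProduct, Finset.sum_eq_single ((), j)]
  · simp [lun, vk, tv]
  · rintro ⟨⟨⟩, b⟩ _ hb
    have : j ≠ b := by rintro rfl; exact hb rfl
    simp [lun, this]
  · simp

theorem rn_vk (u : Unit → R) (x : J → R) : rn R J *ᵥ vk x u = u () • x := by
  ext j
  rw [Matrix.mulVec, dotProduct, Finset.sum_eq_single (j, ())]
  · simp [rn, vk, tv, mul_comm]
  · rintro ⟨b, ⟨⟩⟩ _ hb
    have : j ≠ b := by rintro rfl; exact hb rfl
    simp [rn, this]
  · simp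

end units

section maps

variable {R : Type*} [CommRing R] {J : Type*} [Fintype J] [DecidableEq J] (X : Cx R J)
  (om : Matrix Unit (J × J) R) (D : Matrix J ((J × J) × J) R)

/-- `D(x, y) z - D(y, x) z + ω(x, y) z` -/
def sf1 : Matrix J ((J × J) × J) R :=
  D - D * (sw X X ⊗ₖ (1 : Matrix J J R)) + lun R J * (om ⊗ₖ (1 : Matrix J J R))

/-- `D(x, y) z - D(x, z) y + ω(y, z) x` -/
def sf2 : Matrix J ((J × J) × J) R :=
  D - D * asi R J J J * ((1 : Matrix J J R) ⊗ₖ sw X X) * asc R J J J +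
    rn R J * ((1 : Matrix J J R) ⊗ₖ om) * asc R J J J

/-- `ω(D(x, y) z, w) + ω(z, D(x, y) w) + ω(x, y) ω(z, w)` -/
def sf3 : Matrix Unit (((J × J) × J) × J) R :=
  om * (D ⊗ₖ (1 : Matrix J J R)) +
    om * ((1 : Matrix J J R) ⊗ₖ D) * asc R J (J × J) J * (sw (X.tensor X) X ⊗ₖ (1 : Matrix J J R)) +
    om * ((lun R J * (om ⊗ₖ (1 : Matrix J J R))) ⊗ₖ (1 : Matrix J J R))

variable {X om D}

theorem cl_sf1 (hom : Cl (X.tensor X) (free R Unit 0) 0 om)
    (hD : Cl ((X.tensor X).tensor X) X 0 D) : Cl ((X.tensor X).tensor X) X 0 (sf1 X om D) := by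
  refine (hD.sub ?_).add ?_
  · exact (hD.mul ((cl_sw X X).kron Cl.one)).cast (by ring)
  · exact ((cl_lun X).mul (hom.kron Cl.one)).cast (by ring)

theorem cl_sf2 (hom : Cl (X.tensor X) (free R Unit 0) 0 om)
    (hD : Cl ((X.tensor X).tensor X) X 0 D) : Cl ((X.tensor X).tensor X) X 0 (sf2 X om D) := by
  refine (hD.sub ?_).add ?_
  · exact (((hD.mul (cl_asi X X X)).mul (Cl.one.kron (cl_sw X X))).mul (cl_asc X X X)).cast
      (by ring)
  · exact (((cl_rn X).mul (Cl.one.kron hom)).mul (cl_asc X X X)).cast (by ring)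

theorem cl_sf3 (hom : Cl (X.tensor X) (free R Unit 0) 0 om)
    (hD : Cl ((X.tensor X).tensor X) X 0 D) :
    Cl (((X.tensor X).tensor X).tensor X) (free R Unit 0) 0 (sf3 X om D) := by
  refine Cl.add (Cl.add ?_ ?_) ?_
  · exact (hom.mul (hD.kron Cl.one)).cast (by ring)
  · exact (((hom.mul (Cl.one.kron hD)).mul (cl_asc X (X.tensor X) X)).mul
      ((cl_sw (X.tensor X) X).kron Cl.one)).cast (by ring)
  · exact (hom.mul ((((cl_lun X).mul (hom.kron Cl.one)).kron Cl.one))).cast (by ring)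

/-! ### entries -/

theorem sf1_apply (m i j l : J) : sf1 X om D m ((i, j), l) = D m ((i, j), l) -
    ((sg (X.deg i * X.deg j) : ℤ) : R) * D m ((j, i), l) + om () (i, j) * (if l = m then 1 else 0) := by
  have h1 : (D * (sw X X ⊗ₖ (1 : Matrix J J R))) m ((i, j), l) =
      ((sg (X.deg i * X.deg j) : ℤ) : R) * D m ((j, i), l) := by
    rw [mul_kron_one]
    exact mul_sw X X (Matrix.of fun m x => D m (x, l)) m i j
  have h2 : (lun R J * (om ⊗ₖ (1 : Matrix J J R))) m ((i, j), l) =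
      om () (i, j) * (if l = m then 1 else 0) := by
    rw [lun_mul, Matrix.kroneckerMap_apply, Matrix.one_apply]
    simp only [eq_comm]
  rw [sf1, Matrix.add_apply, Matrix.sub_apply, h1, h2]

theorem sf2_apply (m i j l : J) : sf2 X om D m ((i, j), l) = D m ((i, j), l) -
    ((sg (X.deg j * X.deg l) : ℤ) : R) * D m ((i, l), j) + om () (j, l) * (if i = m then 1 else 0) := by
  have h1 : (D * asi R J J J * ((1 : Matrix J J R) ⊗ₖ sw X X) * asc R J J J) m ((i, j), l) =
      ((sg (X.deg j * X.deg l) : ℤ) : R) * D m ((i, l), j) := by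
    rw [mul_asc, mul_one_kron]
    rw [← mul_asi (M := D) (a := m) (i := i) (j := l) (l := j)]
    exact mul_sw X X (Matrix.of fun m x => (D * asi R J J J) m (i, x)) m j l
  have h2 : (rn R J * ((1 : Matrix J J R) ⊗ₖ om) * asc R J J J) m ((i, j), l) =
      om () (j, l) * (if i = m then 1 else 0) := by
    rw [mul_asc, rn_mul, Matrix.kroneckerMap_apply, Matrix.one_apply, mul_comm]
    simp only [eq_comm]
  rw [sf2, Matrix.add_apply, Matrix.sub_apply, h1, h2]

theorem sf3_apply (i j l r : J) : sf3 X om D () (((i, j), l), r) =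
    ∑ m, om () (m, r) * D m ((i, j), l) +
      ((sg ((X.deg i + X.deg j) * X.deg l) : ℤ) : R) * ∑ m, om () (l, m) * D m ((i, j), r) +
      om () (i, j) * om () (l, r) := by
  have h1 : (om * (D ⊗ₖ (1 : Matrix J J R))) () (((i, j), l), r) =
      ∑ m, om () (m, r) * D m ((i, j), l) := mul_kron_one _ _ _ _ _
  have h2 : (om * ((1 : Matrix J J R) ⊗ₖ D) * asc R J (J × J) J *
      (sw (X.tensor X) X ⊗ₖ (1 : Matrix J J R))) () (((i, j), l), r) =
      ((sg ((X.deg i + X.deg j) * X.deg l) : ℤ) : R) * ∑ m, om () (l, m) * D m ((i, j), r) := by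
    have h4 : (om * ((1 : Matrix J J R) ⊗ₖ D) * asc R J (J × J) J) () ((l, (i, j)), r) =
        ∑ m, om () (l, m) * D m ((i, j), r) := by
      rw [mul_asc, mul_one_kron]
    rw [mul_kron_one, ← h4]
    exact mul_sw (X.tensor X) X (Matrix.of fun m x => (om * ((1 : Matrix J J R) ⊗ₖ D) *
      asc R J (J × J) J) m (x, r)) () (i, j) l
  have h3 : (om * ((lun R J * (om ⊗ₖ (1 : Matrix J J R))) ⊗ₖ (1 : Matrix J J R))) ()
      (((i, j), l), r) = om () (i, j) * om () (l, r) := by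
    rw [mul_kron_one, Finset.sum_eq_single l]
    · rw [lun_mul, Matrix.kroneckerMap_apply, Matrix.one_apply_eq]; ring
    · intro b _ hb
      rw [lun_mul, Matrix.kroneckerMap_apply, Matrix.one_apply_ne hb, mul_zero, mul_zero]
    · simp
  rw [sf3, Matrix.add_apply, Matrix.add_apply, h1, h2, h3]

end maps

end LicciCore

end

section

/-!
# Depth for Hom complexes

`K`, `L` contractible outside degree `0` up to powers of the members of a weakly regular sequence
`a : Fin l → R`, and `deg L - deg K ≥ -b`.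
-/

set_option autoImplicit false
set_option linter.unusedSectionVars false

open Matrix Kronecker RingTheory.Sequence

namespace LicciCx

variable {R : Type*} [CommRing R]

namespace Cx

variable {J J' : Type*} [Fintype J] [Fintype J'] [DecidableEq J] [DecidableEq J']
  {K : Cx R J} {L : Cx R J'} {n : ℤ}

theorem vh_iff_supp {K : Cx R J} {v : J → R} : Vh K n v ↔ Pool.Agent.Licci.Supp K.deg n v := by
  constructor
  · intro h j hj
    by_contra h0
    exact hj (h j h0)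
  · intro h j hj
    by_contra h0
    exact hj (h j h0)

theorem vh_iff_supp' {S : Type*} [CommRing S] {φ : R →+* S} {K : Cx R J} {v : J → S} :
    Vh (K.map φ) n v ↔ Pool.Agent.Licci.Supp K.deg n v := by
  constructor
  · intro h j hj
    by_contra h0
    exact hj (h j h0)
  · intro h j hj
    by_contra h0
    exact hj (h j h0)

theorem hmg_lic (K : Cx R J) : ∀ i j, K.d i j ≠ 0 → K.deg i = K.deg j + 1 := by
  intro i j hij
  by_contra h0
  exact hij (K.hmg i j h0)

/-! ## vectors -/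

/-- exactness in negative degrees -/
theorem exact_neg_vec {l : ℕ} (a : Fin l → R) (ha : IsWeaklyRegular R (List.ofFn a))
    (hK : ∀ i, UE K (a i)) (b : ℕ) (hb : ∀ j, -(b : ℤ) ≤ K.deg j) (hbl : b ≤ l) (hn : n < 0)
    (v : J → R) (hv : Vh K n v) (hdv : K.d *ᵥ v = 0) : ∃ w, Vh K (n - 1) w ∧ v = K.d *ᵥ w := by
  classical
  by_cases hnb : n < -(b : ℤ)
  · refine ⟨0, fun _ _ => rfl, ?_⟩
    rw [Matrix.mulVec_zero]
    funext j
    exact hv j (by have := hb j; omega)
  have hlen : (List.ofFn a).length = l := by simp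
  have hempty : Subsingleton ({j // K.deg j = ((0 : ℕ) : ℤ) - 1 - b} → R) := by
    have : IsEmpty {j // K.deg j = ((0 : ℕ) : ℤ) - 1 - b} := by
      constructor
      rintro ⟨j, hj⟩
      have := hb j
      push_cast at hj
      omega
    infer_instance
  have hst : ∀ i : ℕ, (((i + 1 : ℕ) : ℤ) - 1 - b) = ((i : ℤ) - 1 - b) + 1 := by
    intro i; push_cast; ring
  have hreg : IsWeaklyRegular R ((List.ofFn a).take b) := by
    have h1 := ha
    rw [← List.take_append_drop b (List.ofFn a), isWeaklyRegular_append_iff] at h1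
    exact h1.1
  have hl : ((List.ofFn a).take b).length = b := by
    rw [List.length_take, hlen, min_eq_left hbl]
  have hd := hmg_lic K
  have key := LicciCodimFour.acyclic ((List.ofFn a).take b)
    (fun i : ℕ => {j // K.deg j = (i : ℤ) - 1 - b} → R)
    (fun i : ℕ => Pool.Agent.Licci.dnm K.deg K.d ((i : ℤ) - 1 - b) (((i + 1 : ℕ) : ℤ) - 1 - b))
    (fun i x => Pool.Agent.Licci.dnm_dnm hd K.sq (hst i) (hst (i + 1)) x) hempty
    (fun i => Pool.Agent.Licci.isWeaklyRegular_pi_ring hreg)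
    (by
      intro r hr i hi z hz
      rw [hl] at hi
      have hr' := List.mem_of_mem_take hr
      obtain ⟨l, rfl⟩ := (List.mem_ofFn' _ _).1 hr'
      obtain ⟨m, h, hh1, hh2⟩ := (UE.iff_licci K (a l)).1 (hK l)
      refine ⟨m, Pool.Agent.Licci.resz K.deg _ (h *ᵥ Pool.Agent.Licci.extz K.deg _ z), ?_⟩
      apply Pool.Agent.Licci.extz_injective
      rw [Pool.Agent.Licci.extz_dnm hd (hst i), Pool.Agent.Licci.extz_resz, map_smul,
        Pool.Agent.Licci.UE.apply hh2 (n := ((i + 1 : ℕ) : ℤ) - 1 - b) (by push_cast; omega)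
          (Pool.Agent.Licci.supp_extz _ z),
        ← Pool.Agent.Licci.extz_dnm hd (hst (i + 1)), hz, map_zero, Matrix.mulVec_zero, add_zero]
      congr 1
      apply Pool.Agent.Licci.part_eq
      have := (Pool.Agent.Licci.supp_extz (((i + 1 : ℕ) : ℤ) - 1 - b) z).mulVec (d := h) (k := -1)
        (fun i j hij => by have := hh1 i j hij; omega)
      have e : ((i + 1 : ℕ) : ℤ) - 1 - b + -1 = (i : ℤ) - 1 - b := by push_cast; ring
      rw [e] at this
      exact this)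
  rw [hl] at key
  obtain ⟨i, hi⟩ : ∃ i : ℕ, (i : ℤ) = n + b := ⟨(n + b).toNat, by omega⟩
  have hin : (((i + 1 : ℕ) : ℤ) - 1 - b) = n := by push_cast; omega
  have hv' : Pool.Agent.Licci.part K.deg (((i + 1 : ℕ) : ℤ) - 1 - b) v = v := by
    rw [hin]; exact Pool.Agent.Licci.part_eq (vh_iff_supp.1 hv)
  obtain ⟨y, hy⟩ := key i (by omega) (Pool.Agent.Licci.resz K.deg _ v) (by
    apply Pool.Agent.Licci.extz_injective
    rw [Pool.Agent.Licci.extz_dnm hd (hst (i + 1)), Pool.Agent.Licci.extz_resz, hv', hdv, map_zero])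
  refine ⟨Pool.Agent.Licci.extz K.deg _ y, ?_, ?_⟩
  · rw [vh_iff_supp]
    intro j hj
    have := Pool.Agent.Licci.supp_extz ((i : ℤ) - 1 - b) y j hj
    omega
  · have h2 := congrArg (Pool.Agent.Licci.extz K.deg _) hy
    rw [Pool.Agent.Licci.extz_dnm hd (hst i), Pool.Agent.Licci.extz_resz, hv'] at h2
    exact h2.symm

/-- closed vectors of degree `≠ 0` are boundaries up to the scalar -/
theorem IsCon.vec_bd {c : R} {h : Matrix J J R} (hh : IsCon K c h) (hn : n ≠ 0) {v : J → R}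
    (hv : Vh K n v) (hdv : K.d *ᵥ v = 0) : c • v = K.d *ᵥ (h *ᵥ v) := by
  have h1 : (c • (1 : Matrix J J R) - (K.d * h + h * K.d)) *ᵥ v = 0 := by
    funext i
    rw [Matrix.mulVec, dotProduct]
    refine Finset.sum_eq_zero fun j _ => ?_
    by_cases h0 : K.deg j = n
    · rw [hh.sup i j (by rintro ⟨-, h2⟩; exact hn (h0.symm.trans h2)), zero_mul]
    · rw [hv j h0, mul_zero]
  rw [Matrix.sub_mulVec, Matrix.smul_mulVec, Matrix.one_mulVec, Matrix.add_mulVec,
    sub_eq_zero] at h1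
  rw [h1, ← Matrix.mulVec_mulVec, ← Matrix.mulVec_mulVec, hdv, Matrix.mulVec_zero, add_zero]

theorem Vh.hmg_mulVec {f : Matrix J' J R} {m : ℤ} (hf : IsHmg K L m f) {v : J → R}
    (hv : Vh K n v) : Vh L (n + m) (f *ᵥ v) := by
  intro i hi
  rw [Matrix.mulVec, dotProduct]
  refine Finset.sum_eq_zero fun j _ => ?_
  by_cases h0 : K.deg j = n
  · rw [hf i j (by intro h1; apply hi; rw [h1, h0]), zero_mul]
  · rw [hv j h0, mul_zero]

/-! ## Hom complexes -/

theorem Hom_bot (b : ℕ) (hb : ∀ i j, K.deg j ≤ L.deg i + b) :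
    ∀ x, -(b : ℤ) ≤ (Hom K L).deg x := by
  rintro ⟨i, j⟩
  have := hb i j
  rw [Hom_deg]
  simp only
  omega

/-- closed maps of degree `≠ 0` are boundaries up to a scalar -/
theorem Cl.smul_bd {c : R} (hKL : Con (Hom K L) c) (hn : n ≠ 0) {f : Matrix J' J R}
    (hf : Cl K L n f) : Bd K L n (c • f) := by
  obtain ⟨h, hh⟩ := hKL
  obtain ⟨h1, h2⟩ := cl_iff.1 hf
  rw [bd_iff]
  refine ⟨h *ᵥ vec f, ?_, ?_⟩
  · have := Vh.hmg_mulVec hh.hmg h1
    rw [show n + -1 = n - 1 by ring] at this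
    exact this
  · rw [← hh.vec_bd hn h1 h2]; rfl

/-- closed maps of negative degree are boundaries -/
theorem Cl.bd_of_neg {l : ℕ} (a : Fin l → R) (ha : IsWeaklyRegular R (List.ofFn a))
    (hK : ∀ i, UE K (a i)) (hL : ∀ i, UE L (a i)) (b : ℕ) (hb : ∀ i j, K.deg j ≤ L.deg i + b)
    (hbl : b ≤ l) (hn : n < 0) {f : Matrix J' J R} (hf : Cl K L n f) : Bd K L n f := by
  obtain ⟨h1, h2⟩ := cl_iff.1 hf
  obtain ⟨w, hw1, hw2⟩ := exact_neg_vec a ha (fun i => (hK i).hom (hL i)) b (Hom_bot b hb) hbl hn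
    (vec f) h1 h2
  rw [bd_iff]
  exact ⟨w, hw1, hw2.symm⟩

/-- no torsion in the homotopy classes of maps of degree `0` -/
theorem Bd.of_smul {l : ℕ} (a : Fin l → R) (ha : IsWeaklyRegular R (List.ofFn a))
    (hK : ∀ i, UE K (a i)) (hL : ∀ i, UE L (a i)) (b : ℕ) (hb : ∀ i j, K.deg j ≤ L.deg i + b)
    (hbl : b < l) {f : Matrix J' J R} {s : R} (hs : s ∈ nonZeroDivisors R)
    (hf : Bd K L 0 (s • f)) : Bd K L 0 f := by
  classical
  have hfh : IsHmg K L 0 f := by
    intro i j hij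
    have h1 := hf.hmg i j hij
    rw [Matrix.smul_apply, smul_eq_mul] at h1
    exact (mul_left_mem_nonZeroDivisors_eq_zero_iff hs).1 h1
  obtain ⟨v, hv1, hv2⟩ := bd_iff.1 hf
  obtain ⟨w, hw1, hw2⟩ := Pool.Agent.Licci.depth_torsion a ha (hmg_lic (Hom K L)) (Hom K L).sq
    (fun i => (UE.iff_licci _ _).1 ((hK i).hom (hL i))) b (Hom_bot b hb) hbl (vec f)
    (vh_iff_supp.1 (vec_hmg.2 hfh)) s hs v (by rw [hv2]; rfl)
  rw [bd_iff]
  exact ⟨w, vh_iff_supp.2 hw1, hw2.symm⟩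

section frac

variable {F : Type*} [Field F] [Algebra R F] [IsFractionRing R F] [IsDomain R]

/-- a boundary over the fraction field is a boundary up to a denominator -/
theorem Bd.exists_smul_of_map {f : Matrix J' J R}
    (hf : Bd (K.map (algebraMap R F)) (L.map (algebraMap R F)) n (f.map (algebraMap R F))) :
    ∃ s : R, s ≠ 0 ∧ Bd K L n (s • f) := by
  classical
  obtain ⟨t, ht, hft⟩ := hf
  obtain ⟨s, hs⟩ := IsLocalization.exist_integer_multiples_of_finite (nonZeroDivisors R)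
    (fun x : J' × J => t x.1 x.2)
  choose w hw using hs
  have hinj : Function.Injective (algebraMap R F) := IsFractionRing.injective R F
  let t' : Matrix J' J R := Matrix.of fun i j => w (i, j)
  have ht' : t'.map (algebraMap R F) = algebraMap R F s • t := by
    ext i j
    have := hw (i, j)
    rw [Algebra.smul_def] at this
    exact this
  refine ⟨s, nonZeroDivisors.ne_zero s.2, t', ?_, ?_⟩
  · intro i j hij
    apply hinj
    have h1 := congrFun (congrFun ht' i) j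
    rw [Matrix.map_apply, Matrix.smul_apply, ht i j hij, smul_zero] at h1
    rw [h1, map_zero]
  · have hinj' : Function.Injective (fun f : Matrix J' J R => f.map (algebraMap R F)) := by
      intro f g h
      ext i j
      exact hinj (congrFun (congrFun h i) j)
    apply hinj'
    show ((s : R) • f).map (algebraMap R F) =
      (L.d * t' + ((sg n : ℤ) : R) • (t' * K.d)).map (algebraMap R F)
    rw [map_smul', map_add', sg_smul_map, Matrix.map_mul, Matrix.map_mul, ht', hft, map_d, map_d,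
      smul_add, Matrix.mul_smul, Matrix.smul_mul, smul_comm (algebraMap R F s)]

theorem Bd.of_map {l : ℕ} (a : Fin l → R) (ha : IsWeaklyRegular R (List.ofFn a))
    (hK : ∀ i, UE K (a i)) (hL : ∀ i, UE L (a i)) (b : ℕ) (hb : ∀ i j, K.deg j ≤ L.deg i + b)
    (hbl : b < l) {f : Matrix J' J R}
    (hf : Bd (K.map (algebraMap R F)) (L.map (algebraMap R F)) 0 (f.map (algebraMap R F))) :
    Bd K L 0 f := by
  obtain ⟨s, hs, h⟩ := hf.exists_smul_of_map
  exact Bd.of_smul a ha hK hL b hb hbl (mem_nonZeroDivisors_of_ne_zero hs) h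

/-- A map of degree `0` over the fraction field which is, locally on the complement of `V(a)`,
integral up to homotopy is integral up to homotopy. -/
theorem exists_lift {l : ℕ} (a : Fin l → R) (ha : IsWeaklyRegular R (List.ofFn a))
    (hK : ∀ i, UE K (a i)) (hL : ∀ i, UE L (a i)) (b : ℕ) (hb : ∀ i j, K.deg j ≤ L.deg i + b)
    (hbl : b + 1 < l) (g : Matrix J' J F)
    (hg : IsHmg (K.map (algebraMap R F)) (L.map (algebraMap R F)) 0 g)
    (hloc : ∀ i, ∃ (N : ℕ) (t : Matrix J' J R),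
      Bd (K.map (algebraMap R F)) (L.map (algebraMap R F)) 0
        (algebraMap R F (a i) ^ N • g - t.map (algebraMap R F))) :
    ∃ t : Matrix J' J R, IsHmg K L 0 t ∧
      Bd (K.map (algebraMap R F)) (L.map (algebraMap R F)) 0 (g - t.map (algebraMap R F)) := by
  classical
  have hH : (Hom K L).map (algebraMap R F) =
      Hom (K.map (algebraMap R F)) (L.map (algebraMap R F)) := map_Hom _ K L
  obtain ⟨t, u, ht, hu, htu⟩ := Pool.Agent.Licci.depth_extend_frac a ha (hmg_lic (Hom K L))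
    (Hom K L).sq (fun i => (UE.iff_licci _ _).1 ((hK i).hom (hL i))) b (Hom_bot b hb) hbl (K := F)
    (vec g) (by
      have h1 := vec_hmg.2 hg
      rw [← hH] at h1
      exact vh_iff_supp'.1 h1) (by
      intro i
      obtain ⟨N, t, ht⟩ := hloc i
      obtain ⟨v, hv1, hv2⟩ := bd_iff.1 ht
      refine ⟨N, vec t, v, ?_⟩
      rw [← hH] at hv2
      have h3 : (((Hom K L).d).map (algebraMap R F)) *ᵥ v = ((Hom K L).map (algebraMap R F)).d *ᵥ v := rfl
      rw [h3, hv2]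
      funext x
      show _ = algebraMap R F (t x.1 x.2) + (algebraMap R F (a i) ^ N • g - t.map (algebraMap R F)) x.1 x.2
      rw [Matrix.sub_apply, Matrix.map_apply, add_sub_cancel]
      rfl)
  refine ⟨Matrix.of fun i j => t (i, j), ?_, ?_⟩
  · rw [← vec_hmg, vec_of]
    exact vh_iff_supp.2 ht
  · rw [bd_iff, ← hH]
    refine ⟨u, vh_iff_supp'.2 (by rw [zero_sub]; exact hu), ?_⟩
    have h3 : (((Hom K L).d).map (algebraMap R F)) *ᵥ u = ((Hom K L).map (algebraMap R F)).d *ᵥ u := rfl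
    rw [← h3]
    have h4 := sub_eq_of_eq_add' htu
    rw [← h4]
    rfl

/-- the closed version of `exists_lift` -/
theorem exists_lift_cl {l : ℕ} (a : Fin l → R) (ha : IsWeaklyRegular R (List.ofFn a))
    (hK : ∀ i, UE K (a i)) (hL : ∀ i, UE L (a i)) (b : ℕ) (hb : ∀ i j, K.deg j ≤ L.deg i + b)
    (hbl : b + 1 < l) (g : Matrix J' J F)
    (hg : Cl (K.map (algebraMap R F)) (L.map (algebraMap R F)) 0 g)
    (hloc : ∀ i, ∃ (N : ℕ) (t : Matrix J' J R),
      Bd (K.map (algebraMap R F)) (L.map (algebraMap R F)) 0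
        (algebraMap R F (a i) ^ N • g - t.map (algebraMap R F))) :
    ∃ t : Matrix J' J R, Cl K L 0 t ∧
      Bd (K.map (algebraMap R F)) (L.map (algebraMap R F)) 0 (g - t.map (algebraMap R F)) := by
  obtain ⟨t, ht, hgt⟩ := exists_lift a ha hK hL b hb hbl g hg.hmg hloc
  have h1 : Cl (K.map (algebraMap R F)) (L.map (algebraMap R F)) 0 (t.map (algebraMap R F)) := by
    have := hg.sub hgt.cl
    rwa [sub_sub_cancel] at this
  refine ⟨t, ⟨ht, ?_⟩, hgt⟩
  have hinj : Function.Injective (fun f : Matrix J' J R => f.map (algebraMap R F)) := by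
    intro f g h
    ext i j
    exact IsFractionRing.injective R F (congrFun (congrFun h i) j)
  apply hinj
  show (L.d * t).map (algebraMap R F) = (((sg 0 : ℤ) : R) • (t * K.d)).map (algebraMap R F)
  rw [sg_smul_map, Matrix.map_mul, Matrix.map_mul]
  exact h1.comm

end frac

/-- A closed map of degree `0` which is, up to scalars, a boundary on the cycles of degree `0` is a
boundary. -/
theorem Bd.of_cycles [IsDomain R] {l : ℕ} (a : Fin l → R) (ha : IsWeaklyRegular R (List.ofFn a))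
    (hK : ∀ i, UE K (a i)) (hL : ∀ i, UE L (a i)) (b : ℕ) (hb : ∀ i j, K.deg j ≤ L.deg i + b)
    (hbl : b < l) {f : Matrix J' J R} (hf : Cl K L 0 f)
    (hc : ∀ v, Vh K 0 v → K.d *ᵥ v = 0 → ∃ s : R, s ≠ 0 ∧ ∃ w, s • (f *ᵥ v) = L.d *ᵥ w) :
    Bd K L 0 f := by
  classical
  have ha0 : a ⟨0, by omega⟩ ≠ 0 := by
    intro h
    obtain ⟨l', rfl⟩ : ∃ l', l = l' + 1 := ⟨l - 1, by omega⟩
    rw [List.ofFn_succ, isWeaklyRegular_cons_iff] at ha
    have h2 : IsSMulRegular R (a 0) := ha.1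
    have h3 : a (0 : Fin (l' + 1)) = 0 := h
    rw [h3] at h2
    have := h2 (show (0 : R) • (1 : R) = (0 : R) • (0 : R) by simp)
    exact one_ne_zero this
  obtain ⟨N, h, hh⟩ := hK ⟨0, by omega⟩
  set c := a ⟨0, by omega⟩ ^ N with hcdef
  have hc0 : c ≠ 0 := pow_ne_zero _ ha0
  have hdp := hh.d_pr
  have hpd := hh.pr_d
  -- the columns of the projector are cycles
  have hcol : ∀ j, ∃ s : R, s ≠ 0 ∧ ∃ w, s • (f *ᵥ (fun i => K.pr c h i j)) = L.d *ᵥ w := by
    intro j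
    refine hc _ ?_ ?_
    · intro i hi
      exact hh.sup i j (by rintro ⟨h1, -⟩; exact hi h1)
    · funext i
      exact congrFun (congrFun hdp i) j
  choose s hs w hw using hcol
  -- common denominator
  let S : R := ∏ j, s j
  have hS : S ≠ 0 := Finset.prod_ne_zero_iff.2 fun j _ => hs j
  let W₀ : Matrix J' J R := Matrix.of fun i j => (∏ k ∈ Finset.univ.erase j, s k) * w j i
  have hW₀a : ∀ i j, W₀ i j = (∏ k ∈ Finset.univ.erase j, s k) * w j i := fun _ _ => rfl
  have hW₀ : S • (f * K.pr c h) = L.d * W₀ := by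
    ext i j
    have h1 := congrFun (hw j) i
    have h2 : S = (∏ k ∈ Finset.univ.erase j, s k) * s j := by
      rw [mul_comm]
      exact (Finset.mul_prod_erase _ _ (Finset.mem_univ j)).symm
    rw [Matrix.smul_apply, smul_eq_mul, Matrix.mul_apply, h2, mul_assoc]
    have h3 : s j * ∑ k, f i k * K.pr c h k j = (s j • (f *ᵥ (fun i => K.pr c h i j))) i := rfl
    rw [h3, h1]
    rw [Matrix.mulVec, dotProduct, Finset.mul_sum, Matrix.mul_apply]
    refine Finset.sum_congr rfl fun k _ => ?_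
    rw [hW₀a]
    ring
  -- homogeneous part of degree `-1`
  let W₁ : Matrix J' J R := Matrix.of fun i j => if L.deg i = K.deg j - 1 then W₀ i j else 0
  have hW₁a : ∀ i j, W₁ i j = if L.deg i = K.deg j - 1 then W₀ i j else 0 := fun _ _ => rfl
  have hfp : IsHmg K L 0 (f * K.pr c h) := hf.hmg.mul' hh.sup.hmg (by norm_num)
  have hW₁ : S • (f * K.pr c h) = L.d * W₁ := by
    rw [hW₀]
    ext i j
    by_cases hij : L.deg i = K.deg j
    · rw [Matrix.mul_apply, Matrix.mul_apply]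
      refine Finset.sum_congr rfl fun k _ => ?_
      by_cases h1 : L.deg i = L.deg k + 1
      · rw [hW₁a, if_pos (by omega)]
      · rw [L.hmg i k h1, zero_mul, zero_mul]
    · rw [← hW₀, Matrix.smul_apply, hfp i j (by rw [add_zero]; exact hij), smul_zero,
        Matrix.mul_apply]
      symm
      refine Finset.sum_eq_zero fun k _ => ?_
      by_cases h1 : L.deg i = L.deg k + 1
      · rw [hW₁a, if_neg (by omega), mul_zero]
      · rw [L.hmg i k h1, zero_mul]
  have hW₁h : IsHmg K L (-1) W₁ := by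
    intro i j hij
    rw [hW₁a, if_neg (by intro h1; apply hij; rw [h1]; ring)]
  have b1 : Bd K L 0 (S • (f * K.pr c h * K.pr c h)) := by
    refine ⟨W₁ * K.pr c h, (hW₁h.mul' hh.sup.hmg (by norm_num)), ?_⟩
    rw [← Matrix.smul_mul, hW₁, Matrix.mul_assoc L.d, Matrix.mul_assoc W₁, hpd, Matrix.mul_zero,
      smul_zero, add_zero]
  have hpp : c • K.pr c h = K.pr c h * K.pr c h + K.d * (h * K.pr c h) := by
    have h1 : K.pr c h * K.pr c h = (c • (1 : Matrix J J R) - (K.d * h + h * K.d)) * K.pr c h := rfl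
    rw [h1, Matrix.sub_mul, Matrix.smul_mul, Matrix.one_mul, Matrix.add_mul, Matrix.mul_assoc h,
      hdp, Matrix.mul_zero, add_zero, Matrix.mul_assoc]
    abel
  have b2 : Bd K L 0 (f * (K.d * (h * K.pr c h))) := by
    refine ⟨f * (h * K.pr c h), (hf.hmg.mul' (hh.hmg.mul' hh.sup.hmg rfl) (by norm_num)), ?_⟩
    rw [Matrix.mul_assoc f, Matrix.mul_assoc h, hpd, Matrix.mul_zero, Matrix.mul_zero, smul_zero,
      add_zero, ← Matrix.mul_assoc, ← hf.comm0, Matrix.mul_assoc]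
  have b3 : Bd K L 0 ((S * c) • (f * K.pr c h)) := by
    have h1 : (S * c) • (f * K.pr c h) =
        S • (f * K.pr c h * K.pr c h) + S • (f * (K.d * (h * K.pr c h))) := by
      rw [mul_smul, ← Matrix.mul_smul f, hpp, Matrix.mul_add, smul_add, Matrix.mul_assoc f]
    rw [h1]
    exact b1.add (b2.smul S)
  have b4 : Bd K L 0 (f * (K.d * h + h * K.d)) := by
    refine ⟨f * h, hf.hmg.mul' hh.hmg (by norm_num), ?_⟩
    rw [sg_zero, Matrix.mul_add, ← Matrix.mul_assoc f K.d, ← hf.comm0]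
    simp only [Int.cast_one, one_smul, Matrix.mul_assoc]
  have b5 : Bd K L 0 ((S * c * c) • f) := by
    have h1 : c • f = f * K.pr c h + f * (K.d * h + h * K.d) := by
      rw [← Matrix.mul_add, pr, sub_add_cancel, Matrix.mul_smul, Matrix.mul_one]
    rw [mul_smul, h1, smul_add]
    exact b3.add (b4.smul _)
  exact Bd.of_smul a ha hK hL b hb hbl
    (mem_nonZeroDivisors_of_ne_zero (mul_ne_zero (mul_ne_zero hS hc0) hc0)) b5

/-- A map `w` of degree `1` which is, locally on the complement of `V(a)`, the boundary of maps that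
agree up to homotopy is a boundary. -/
theorem Bd.one_of_local [IsDomain R] {l : ℕ} (a : Fin l → R) (ha : IsWeaklyRegular R (List.ofFn a))
    (hK : ∀ i, UE K (a i)) (hL : ∀ i, UE L (a i)) (b : ℕ) (hb : ∀ i j, K.deg j ≤ L.deg i + b)
    (hbl : b + 1 < l) (N : Fin l → ℕ) (u : Fin l → Matrix J' J R) (w : Matrix J' J R)
    (hu : ∀ i, IsHmg K L 0 (u i)) (hw : ∀ i, L.d * u i - u i * K.d = a i ^ N i • w)
    (huu : ∀ i j, Bd K L 0 (a j ^ N j • u i - a i ^ N i • u j)) : Bd K L 1 w := by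
  classical
  obtain ⟨t, ht, htu⟩ := Pool.Agent.Licci.depth_extend a ha (hmg_lic (Hom K L)) (Hom K L).sq
    (fun i => (UE.iff_licci _ _).1 ((hK i).hom (hL i))) b (Hom_bot b hb) hbl N
    (fun i => vec (u i)) (fun i => vh_iff_supp.1 (vec_hmg.2 (hu i))) (by
      intro i j
      obtain ⟨v, hv1, hv2⟩ := bd_iff.1 (huu i j)
      exact ⟨v, by rw [hv2]; rfl⟩)
  let t' : Matrix J' J R := Matrix.of fun i j => t (i, j)
  have ht' : IsHmg K L 0 t' := by
    rw [← vec_hmg, vec_of]; exact vh_iff_supp.2 ht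
  have ha0 : a ⟨0, by omega⟩ ≠ 0 := by
    intro h
    obtain ⟨l', rfl⟩ : ∃ l', l = l' + 1 := ⟨l - 1, by omega⟩
    rw [List.ofFn_succ, isWeaklyRegular_cons_iff] at ha
    have h2 : IsSMulRegular R (a 0) := ha.1
    have h3 : a (0 : Fin (l' + 1)) = 0 := h
    rw [h3] at h2
    have := h2 (show (0 : R) • (1 : R) = (0 : R) • (0 : R) by simp)
    exact one_ne_zero this
  obtain ⟨y, hy1, hy2⟩ := htu ⟨0, by omega⟩
  have hb1 : Bd K L 0 (a ⟨0, by omega⟩ ^ N ⟨0, by omega⟩ • t' - u ⟨0, by omega⟩) := by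
    rw [bd_iff]
    refine ⟨y, vh_iff_supp.2 (by rw [zero_sub]; exact hy1), ?_⟩
    rw [← hy2]; rfl
  have hcl := hb1.cl.comm0
  rw [Matrix.mul_sub, Matrix.sub_mul, Matrix.mul_smul, Matrix.smul_mul] at hcl
  refine ⟨t', by rw [sub_self]; exact ht', ?_⟩
  have hinj : Function.Injective (fun f : Matrix J' J R => a ⟨0, by omega⟩ ^ N ⟨0, by omega⟩ • f) := by
    intro f g h
    ext i j
    have := congrFun (congrFun h i) j
    exact mul_left_cancel₀ (pow_ne_zero _ ha0) this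
  apply hinj
  show a ⟨0, by omega⟩ ^ N ⟨0, by omega⟩ • w = a ⟨0, by omega⟩ ^ N ⟨0, by omega⟩ • (L.d * t' + ((sg 1 : ℤ) : R) • (t' * K.d))
  rw [← hw, sg_one]
  push_cast
  rw [neg_one_smul, ← sub_eq_add_neg, smul_sub]
  rw [sub_eq_sub_iff_sub_eq_sub] at hcl
  rw [← sub_eq_zero] at hcl ⊢
  rw [← neg_eq_zero, ← hcl]
  abel

end Cx

end LicciCx

end

section

/-!
# Minimal complexes, descent of closedness, the symmetry of the tensor product
-/

set_option autoImplicit false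
set_option linter.unusedSectionVars false

open Matrix Kronecker

namespace LicciCx

variable {R : Type*} [CommRing R]

namespace Cx

variable {S : Type*} [CommRing S] {J J' J'' J₁ J₁' : Type*} [Fintype J] [Fintype J'] [Fintype J'']
  [Fintype J₁] [Fintype J₁'] [DecidableEq J] [DecidableEq J'] [DecidableEq J''] [DecidableEq J₁]
  [DecidableEq J₁'] {n m : ℤ} {K : Cx R J} {L : Cx R J'} (φ : R →+* S)

/-- a closed map over a subring is closed -/
theorem Cl.of_map (hφ : Function.Injective φ) {f : Matrix J' J R}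
    (hf : Cl (K.map φ) (L.map φ) n (f.map φ)) : Cl K L n f := by
  have hinj : Function.Injective (fun f : Matrix J' J R => f.map φ) := by
    intro f g h
    ext i j
    exact hφ (congrFun (congrFun h i) j)
  refine ⟨fun i j h => hφ ?_, hinj ?_⟩
  · rw [map_zero]; exact hf.hmg i j h
  · have := hf.comm
    show (L.d * f).map φ = (((sg n : ℤ) : R) • (f * K.d)).map φ
    rw [sg_smul_map, Matrix.map_mul, Matrix.map_mul]
    exact this

/-! ## complexes whose differential has entries in an ideal -/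

/-- all entries of the differential lie in `I` -/
def Min (I : Ideal R) (K : Cx R J) : Prop := ∀ i j, K.d i j ∈ I

theorem mul_mem_ideal {A B C : Type*} [Fintype B] {I : Ideal R} {f : Matrix A B R}
    {g : Matrix B C R} (hf : ∀ i j, f i j ∈ I) (i : A) (j : C) : (f * g) i j ∈ I := by
  rw [Matrix.mul_apply]
  exact I.sum_mem fun k _ => I.mul_mem_right _ (hf i k)

theorem mul_mem_ideal' {A B C : Type*} [Fintype B] {I : Ideal R} {f : Matrix A B R}
    {g : Matrix B C R} (hg : ∀ i j, g i j ∈ I) (i : A) (j : C) : (f * g) i j ∈ I := by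
  rw [Matrix.mul_apply]
  exact I.sum_mem fun k _ => I.mul_mem_left _ (hg k j)

/-- boundaries between minimal complexes vanish modulo the ideal -/
theorem Bd.mem_ideal {I : Ideal R} (hK : Min I K) (hL : Min I L) {f : Matrix J' J R}
    (hf : Bd K L n f) (i : J') (j : J) : f i j ∈ I := by
  obtain ⟨s, hs, rfl⟩ := hf
  rw [Matrix.add_apply, Matrix.smul_apply, smul_eq_mul]
  exact I.add_mem (mul_mem_ideal hL i j) (I.mul_mem_left _ (mul_mem_ideal' hK i j))

theorem Min.tensor {I : Ideal R} (hK : Min I K) (hL : Min I L) : Min I (K.tensor L) := by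
  rintro ⟨i, i'⟩ ⟨j, j'⟩
  rw [tensor_d, Matrix.add_apply, Matrix.kroneckerMap_apply, Matrix.kroneckerMap_apply]
  exact I.add_mem (I.mul_mem_right _ (hK i j)) (I.mul_mem_left _ (hL i' j'))

theorem Min.dual {I : Ideal R} (hK : Min I K) : Min I K.dual := by
  intro i j
  rw [dual_d, Matrix.neg_apply, Matrix.transpose_apply]
  exact I.neg_mem (mul_mem_ideal' hK j i)

theorem Min.hom {I : Ideal R} (hK : Min I K) (hL : Min I L) : Min I (Hom K L) :=
  hL.tensor hK.dual

theorem Min.map {I : Ideal R} (hK : Min I K) : Min (I.map φ) (K.map φ) :=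
  fun i j => Ideal.mem_map_of_mem φ (hK i j)

/-- the differential of a minimal complex vanishes on the closed fibre -/
theorem Min.map_d_eq_zero {I : Ideal R} (hK : Min I K) (hI : I ≤ RingHom.ker φ) :
    K.d.map φ = 0 := by
  ext i j
  exact hI (hK i j)

/-! ## the symmetry of the tensor product -/

/-- the swap `K ⊗ L → L ⊗ K` with the sign `(-1) ^ (deg k * deg l)` -/
def swap (K : Cx R J) (L : Cx R J') : Matrix (J' × J) (J × J') R :=
  Matrix.of fun y x => if y = (x.2, x.1) then ((sg (K.deg x.1 * L.deg x.2) : ℤ) : R) else 0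

theorem swap_apply (x : J × J') (y : J' × J) : swap K L y x =
    if y = (x.2, x.1) then ((sg (K.deg x.1 * L.deg x.2) : ℤ) : R) else 0 := rfl

theorem mul_swap {A : Type*} (f : Matrix A (J' × J) R) (a : A) (x : J × J') :
    (f * swap K L) a x = f a (x.2, x.1) * ((sg (K.deg x.1 * L.deg x.2) : ℤ) : R) := by
  rw [Matrix.mul_apply, Finset.sum_eq_single (x.2, x.1)]
  · rw [swap_apply, if_pos rfl]
  · intro b _ hb; rw [swap_apply, if_neg hb, mul_zero]
  · intro h; exact absurd (Finset.mem_univ _) h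

theorem swap_mul {A : Type*} (f : Matrix (J × J') A R) (y : J' × J) (a : A) :
    (swap K L * f) y a = ((sg (K.deg y.2 * L.deg y.1) : ℤ) : R) * f (y.2, y.1) a := by
  rw [Matrix.mul_apply, Finset.sum_eq_single (y.2, y.1)]
  · rw [swap_apply, if_pos rfl]
  · rintro ⟨b1, b2⟩ _ hb
    rw [swap_apply, if_neg, zero_mul]
    rintro rfl
    exact hb rfl
  · intro h; exact absurd (Finset.mem_univ _) h

theorem swap_mulVec (v : J × J' → R) (y : J' × J) :
    (swap K L *ᵥ v) y = ((sg (K.deg y.2 * L.deg y.1) : ℤ) : R) * v (y.2, y.1) := by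
  rw [Matrix.mulVec, dotProduct, Finset.sum_eq_single (y.2, y.1)]
  · rw [swap_apply, if_pos rfl]
  · rintro ⟨b1, b2⟩ _ hb
    rw [swap_apply, if_neg, zero_mul]
    rintro rfl
    exact hb rfl
  · intro h; exact absurd (Finset.mem_univ _) h

theorem swap_swap : swap L K * swap K L = 1 := by
  ext x y
  rw [mul_swap, swap_apply]
  by_cases h : x = y
  · subst h
    rw [if_pos rfl, Matrix.one_apply_eq, mul_comm (L.deg x.2), ← Int.cast_mul, sg_mul_self, Int.cast_one]
  · rw [if_neg, zero_mul, Matrix.one_apply_ne h]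
    intro h1
    exact h h1

theorem swap_hmg : IsHmg (K.tensor L) (L.tensor K) 0 (swap K L) := by
  intro y x h
  rw [swap_apply, if_neg]
  rintro rfl
  apply h
  rw [tensor_deg, tensor_deg]
  ring

theorem sg_sq' (n : ℤ) : ((sg n : ℤ) : R) * ((sg n : ℤ) : R) = 1 := by
  rw [← Int.cast_mul, sg_mul_self, Int.cast_one]

theorem swap_cl : Cl (K.tensor L) (L.tensor K) 0 (swap K L) := by
  refine Cl.mk0 swap_hmg ?_
  ext ⟨y1, y2⟩ ⟨x1, x2⟩
  rw [mul_swap, swap_mul, tensor_d, tensor_d, Matrix.add_apply, Matrix.add_apply]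
  simp only [Matrix.kroneckerMap_apply, ep, Matrix.one_apply, Matrix.diagonal_apply]
  by_cases h1 : y1 = x2 <;> by_cases h2 : y2 = x1
  · subst h1 h2
    simp only [if_true, mul_one]
    have hK : K.d y2 y2 = 0 := K.hmg y2 y2 (by omega)
    have hL : L.d y1 y1 = 0 := L.hmg y1 y1 (by omega)
    rw [hK, hL]; simp
  · subst h1
    simp only [if_true, h2, if_false, mul_zero, zero_mul, zero_add, add_zero, mul_one]
    by_cases h3 : K.deg y2 = K.deg x1 + 1
    · rw [h3, add_mul, one_mul, sg_add]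
      push_cast
      ring
    · rw [K.hmg y2 x1 h3]; simp
  · subst h2
    simp only [if_true, h1, if_false, mul_zero, zero_mul, add_zero, mul_one, zero_add]
    by_cases h3 : L.deg y1 = L.deg x2 + 1
    · rw [h3, mul_add, mul_one, sg_add]
      push_cast
      rw [mul_assoc, ← mul_assoc ((sg (K.deg y2) : ℤ) : R) ((sg (K.deg y2) : ℤ) : R), sg_sq']
      ring
    · rw [L.hmg y1 x2 h3]; simp
  · simp only [h1, h2, if_false, mul_zero, zero_mul, add_zero]

end Cx

end LicciCx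

end

section

/-!
# Maps into and out of extensions
-/

set_option autoImplicit false
set_option linter.unusedSectionVars false

open Matrix Kronecker

namespace LicciCx

variable {R : Type*} [CommRing R]

section blocks

variable {A A' B B' : Type*} {p : A → ℤ} {p' : A' → ℤ} {q : B → ℤ} {q' : B' → ℤ} {n : ℤ}

/-- a change of the degrees of the target -/
theorem Hmg.congrL {f : Matrix A' A R} (hf : Hmg p' p n f) {p₁ : A' → ℤ} {m : ℤ}
    (h : ∀ i, p₁ i = p' i + m) : Hmg p₁ p (n + m) f := by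
  intro i j hij
  exact hf i j (by intro h2; apply hij; rw [h i, h2]; ring)

/-- a change of the degrees of the source -/
theorem Hmg.congrR {f : Matrix A' A R} (hf : Hmg p' p n f) {p₁ : A → ℤ} {m : ℤ}
    (h : ∀ i, p₁ i = p i + m) : Hmg p' p₁ (n - m) f := by
  intro i j hij
  exact hf i j (by intro h2; apply hij; rw [h j, h2]; ring)

theorem Hmg.fromCols_inl {f : Matrix A' A R} {g : Matrix A' B R}
    (hfg : Hmg p' (Sum.elim p q) n (Matrix.fromCols f g)) : Hmg p' p n f :=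
  fun i j hij => hfg i (Sum.inl j) hij

theorem Hmg.fromCols_inr {f : Matrix A' A R} {g : Matrix A' B R}
    (hfg : Hmg p' (Sum.elim p q) n (Matrix.fromCols f g)) : Hmg p' q n g :=
  fun i j hij => hfg i (Sum.inr j) hij

end blocks

namespace Cx

variable {J J' J'' : Type*} [Fintype J] [Fintype J'] [Fintype J'']
  [DecidableEq J] [DecidableEq J'] [DecidableEq J'']

variable {K : Cx R J} {L : Cx R J'} {T : Cx R J''} {n m : ℤ}

/-- A map into an extension: `s : T → L` closed and `u : T → K` of degree `0` with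
`d u + θ s = u d`. -/
theorem Cl.toExt {θ : Matrix J J' R} (hθ : Cl L K 1 θ) {u : Matrix J J'' R}
    {s : Matrix J' J'' R} (hu : IsHmg T K 0 u) (hs : Cl T L 0 s)
    (h : K.d * u + θ * s = u * T.d) : Cl T (ext hθ) 0 (Matrix.fromRows u s) :=
  Cl.mk0 (Hmg.fromRows hu hs.hmg) (by
    rw [ext_d, Matrix.fromBlocks_mul_fromRows, Matrix.fromRows_mul, h]
    congr 1
    rw [Matrix.zero_mul, zero_add, hs.comm0])

/-- A map out of an extension. -/
theorem Cl.ofExt {θ : Matrix J J' R} (hθ : Cl L K 1 θ) {u : Matrix J'' J R}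
    {s : Matrix J'' J' R} (hu : Cl K T 0 u) (hs : IsHmg L T 0 s)
    (h : T.d * s = u * θ + s * L.d) : Cl (ext hθ) T 0 (Matrix.fromCols u s) :=
  Cl.mk0 (Hmg.fromCols hu.hmg hs) (by
    rw [ext_d, Matrix.fromCols_mul_fromBlocks, Matrix.mul_fromCols, hu.comm0, h]
    congr 1
    rw [Matrix.mul_zero, add_zero])

end Cx

end LicciCx

end

section

/-!
# The key homotopy of degree one (note 5959, section 6)

`key`: `Dh (ξ ⊗ ·) + iP τ` is null-homotopic.  It is locally the boundary of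
`u i = Dh (κ i ⊗ ·) - [y i, ·] + k i` and the `u i` agree on the cohomology.
-/

set_option autoImplicit false
set_option linter.unusedSectionVars false

open Matrix Kronecker RingTheory.Sequence

namespace LicciCx

namespace Cx

universe u

variable {R : Type u} [CommRing R]

/-! ## insertion of a vector -/

section ins

variable {J J' : Type*} [Fintype J] [Fintype J'] [DecidableEq J] [DecidableEq J'] {Y : Cx R J}
  {X : Cx R J'} {n m : ℤ}

/-- `x ↦ v ⊗ x` -/
def ins (J' : Type*) [DecidableEq J'] (v : J → R) : Matrix (J × J') J' R :=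
  fun x j => if x.2 = j then v x.1 else 0

theorem ins_mulVec (v : J → R) (x : J' → R) : ins J' v *ᵥ x = tv v x := by
  ext ⟨i, j⟩
  simp [ins, tv, Matrix.mulVec, dotProduct]

theorem ins_add (v w : J → R) : ins J' (v + w) = ins J' v + ins J' w := by
  ext ⟨i, k⟩ j
  by_cases h : k = j <;> simp [ins, h]

theorem ins_sub (v w : J → R) : ins J' (v - w) = ins J' v - ins J' w := by
  ext ⟨i, k⟩ j
  by_cases h : k = j <;> simp [ins, h]

theorem ins_smul (c : R) (v : J → R) : ins J' (c • v) = c • ins J' v := by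
  ext ⟨i, k⟩ j
  by_cases h : k = j <;> simp [ins, h]

theorem ins_hmg {v : J → R} (hv : Vh Y n v) : IsHmg X (Y.tensor X) n (ins J' v) := by
  rintro ⟨i, k⟩ j h
  show (if k = j then v i else 0) = 0
  by_cases hk : k = j
  · subst hk
    rw [if_pos rfl]
    exact hv i (by intro h1; apply h; rw [tensor_deg, h1]; ring)
  · rw [if_neg hk]

theorem tensor_d_ins {v : J → R} (hv : Vh Y n v) :
    (Y.tensor X).d * ins J' v = ins J' (Y.d *ᵥ v) + ((sg n : ℤ) : R) • (ins J' v * X.d) := by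
  ext ⟨i, k⟩ j
  rw [tensor_d, Matrix.add_mul, Matrix.add_apply, Matrix.add_apply, Matrix.smul_apply]
  congr 1
  · rw [Matrix.mul_apply, Fintype.sum_prod_type]
    simp only [Matrix.kroneckerMap_apply, ins]
    have : ∀ x : J, ∑ y : J', Y.d i x * (1 : Matrix J' J' R) k y * (if y = j then v x else 0) =
        (if k = j then Y.d i x * v x else 0) := by
      intro x
      rw [Finset.sum_eq_single j]
      · by_cases h : k = j
        · subst h; simp
        · simp [h, Matrix.one_apply_ne h]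
      · intro y _ hy; simp [hy]
      · simp
    rw [Finset.sum_congr rfl fun x _ => this x]
    by_cases h : k = j
    · simp [h, Matrix.mulVec, dotProduct]
    · simp [h]
  · rw [Matrix.mul_apply, Fintype.sum_prod_type, Matrix.mul_apply]
    simp only [Matrix.kroneckerMap_apply, ins, ep, Matrix.diagonal_apply]
    have h1 : ∀ x : J, ∑ y : J', (if i = x then ((sg (Y.deg i) : ℤ) : R) else 0) * X.d k y *
        (if y = j then v x else 0) = (if i = x then ((sg (Y.deg i) : ℤ) : R) * X.d k j * v x else 0) := by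
      intro x
      rw [Finset.sum_eq_single j]
      · by_cases h : i = x <;> simp [h]
      · intro y _ hy; simp [hy]
      · simp
    rw [Finset.sum_congr rfl fun x _ => h1 x, Finset.sum_ite_eq, if_pos (Finset.mem_univ _)]
    have h2 : ∑ y : J', (if k = y then v i else 0) * X.d y j = v i * X.d k j := by
      rw [Finset.sum_eq_single k]
      · simp
      · intro y _ hy; simp [hy.symm]
      · simp
    rw [h2, smul_eq_mul]
    by_cases h : Y.deg i = n
    · rw [h]; ring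
    · rw [hv i h]; ring

end ins

/-! ## the key homotopy -/

section key

variable {JW JY JX J₂ J₁ JG : Type*} [Fintype JW] [Fintype JY] [Fintype JX] [Fintype J₂]
  [Fintype J₁] [Fintype JG] [DecidableEq JW] [DecidableEq JY] [DecidableEq JX] [DecidableEq J₂]
  [DecidableEq J₁] [DecidableEq JG]

/-- parts of products, rectangular form -/
theorem part_mulVec' {A B : Type*} [Fintype A] {p : A → ℤ} {p' : B → ℤ} {n : ℤ}
    {f : Matrix B A R} (hf : Hmg p' p n f) (m : ℤ) (v : A → R) :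
    Pool.Agent.Licci.part p' (m + n) (f *ᵥ v) = f *ᵥ Pool.Agent.Licci.part p m v := by
  funext i
  by_cases h : p' i = m + n
  · simp only [Pool.Agent.Licci.part, h, if_true, Matrix.mulVec, dotProduct]
    refine Finset.sum_congr rfl fun j _ => ?_
    by_cases h' : p j = m
    · rw [if_pos h']
    · rw [if_neg h', mul_zero, hf i j (by omega), zero_mul]
  · simp only [Pool.Agent.Licci.part, h, if_false, Matrix.mulVec, dotProduct]
    symm
    refine Finset.sum_eq_zero fun j _ => ?_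
    by_cases h' : p j = m
    · rw [hf i j (by omega), zero_mul]
    · rw [if_neg h', mul_zero]

/-- The key homotopy.  `X₂ = X''`, `X₁ = X'`, `W = R ^ JW` in degree `0`, `al : X₂ → W`,
`A : W → X₁`, `iW : W → G`, `iP : X₁ → G` (degree `1`), `Dh : Y ⊗ X → G`, `ad y = [y, ·]`,
`kp y` of degree `0` with `d (kp y) = lam y • ξ`. -/
theorem key [IsDomain R] {l : ℕ} (a : Fin l → R) (ha : IsWeaklyRegular R (List.ofFn a)) (hl : 5 ≤ l)
    (Y : Cx R JY) (X : Cx R JX) (X₂ : Cx R J₂) (X₁ : Cx R J₁) (G : Cx R JG)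
    (hX₂ : ∀ j, X₂.deg j ≤ 1) (hX₁ : ∀ j, -1 ≤ X₁.deg j) (hG : ∀ j, -2 ≤ G.deg j)
    (uX₂ : ∀ i, UE X₂ (a i)) (uX₁ : ∀ i, UE X₁ (a i)) (uG : ∀ i, UE G (a i))
    (al : Matrix JW J₂ R) (hal : Cl X₂ (free R JW 0) 0 al)
    (A : Matrix J₁ JW R) (hA : Cl (free R JW 0) X₁ 0 A)
    (pr₂ : Matrix JX J₂ R) (hpr : Cl X₂ X 0 pr₂)
    (τ : Matrix J₁ J₂ R) (hτ : Cl X₂ X₁ 0 τ)
    (iW : Matrix JG JW R) (hiW : IsHmg (free R JW 0) G 0 iW)
    (iP : Matrix JG J₁ R) (hiP : Cl X₁ G 1 iP) (hWA : G.d * iW = iP * A)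
    (hinj : ∀ v, iP *ᵥ v = 0 → v = 0)
    (hX₁d : ∀ v, Vh X₁ (-1) v → X₁.d *ᵥ v = 0 → v = 0)
    (Dh : Matrix JG (JY × JX) R) (hDh : Cl (Y.tensor X) G 0 Dh)
    (ad : (JW → R) →ₗ[R] Matrix JW JW R) (lam : (JW → R) →ₗ[R] R)
    (kp : (JW → R) →ₗ[R] (JY → R)) (hkp : ∀ y, Vh Y 0 (kp y))
    (ξ : JY → R) (hdk : ∀ y, Y.d *ᵥ kp y = lam y • ξ)
    (hlam : ∀ i, ∃ (N : ℕ) (y : JW → R), lam y = a i ^ N)
    (hC : ∀ y x, Vh X₂ 0 x → X₂.d *ᵥ x = 0 → ∃ s : R, s ≠ 0 ∧ ∃ e,
      s • (A *ᵥ (ad y *ᵥ (al *ᵥ x)) + lam y • (τ *ᵥ x)) = X₁.d *ᵥ e)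
    (hD : ∀ y x, lam y = 0 → Vh X₂ 0 x → X₂.d *ᵥ x = 0 → ∃ s : R, s ≠ 0 ∧ ∃ e g,
      s • (Dh *ᵥ tv (kp y) (pr₂ *ᵥ x)) =
        s • (iW *ᵥ (ad y *ᵥ (al *ᵥ x))) + iP *ᵥ e + G.d *ᵥ g) :
    Bd X₂ G 1 (Dh * ins JX ξ * pr₂ + iP * τ) := by
  choose N y hy using hlam
  -- the local homotopies `k i`
  have hk : ∀ i, ∃ k : Matrix J₁ J₂ R, IsHmg X₂ X₁ (-1) k ∧
      A * ad (y i) * al + a i ^ N i • τ = -(X₁.d * k + k * X₂.d) := by
    intro i
    have hcl : Cl X₂ X₁ 0 (A * ad (y i) * al + a i ^ N i • τ) := by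
      refine Cl.add ?_ (hτ.smul _)
      have h1 : Cl (free R JW 0) (free R JW 0) 0 (ad (y i)) := by
        refine Cl.mk0 ?_ (by simp)
        intro i j h
        exact absurd (by simp) h
      exact ((hA.mul h1).mul hal).cast (by norm_num)
    have h1 := Bd.of_cycles a ha uX₂ uX₁ 2 (by
      intro j j'
      have := hX₂ j'
      have := hX₁ j
      push_cast
      omega) (by omega) hcl (by
        intro v hv hdv
        obtain ⟨s, hs, e, he⟩ := hC (y i) v hv hdv
        refine ⟨s, hs, e, ?_⟩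
        rw [← he, Matrix.add_mulVec, Matrix.smul_mulVec, ← Matrix.mulVec_mulVec,
          ← Matrix.mulVec_mulVec, hy i])
    obtain ⟨k, hk1, hk2⟩ := h1
    refine ⟨-k, (hk1.cast (by norm_num)).neg, ?_⟩
    rw [hk2, sg_zero, Int.cast_one, one_smul, Matrix.mul_neg, Matrix.neg_mul]
    abel
  choose k hk1 hk2 using hk
  have halX : al * X₂.d = 0 := by
    have := hal.comm0
    rw [free_d, Matrix.zero_mul] at this
    exact this.symm
  have hpP : G.d * iP = -(iP * X₁.d) := hiP.comm1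
  -- the map `u`
  have hadh : ∀ z, IsHmg X₂ G 0 (iW * ad z * al) := by
    intro z
    have h1 : IsHmg (free R JW 0) (free R JW 0) 0 (ad z) := by
      intro i j h
      exact absurd (by simp) h
    have h2 := Hmg.mul (Hmg.mul hiW h1) hal.hmg
    exact h2.cast (by norm_num)
  have hDz : ∀ z, IsHmg X₂ G 0 (Dh * ins JX (kp z) * pr₂) := by
    intro z
    have h1 : IsHmg X (Y.tensor X) 0 (ins JX (kp z)) := ins_hmg (hkp z)
    have h2 := Hmg.mul (Hmg.mul hDh.hmg h1) hpr.hmg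
    exact h2.cast (by norm_num)
  have hδD : ∀ z, G.d * (Dh * ins JX (kp z) * pr₂) - (Dh * ins JX (kp z) * pr₂) * X₂.d =
      lam z • (Dh * ins JX ξ * pr₂) := by
    intro z
    have h1 := tensor_d_ins (X := X) (hkp z)
    rw [sg_zero, Int.cast_one, one_smul, hdk z, ins_smul] at h1
    have h2 : G.d * (Dh * ins JX (kp z) * pr₂) = Dh * ((Y.tensor X).d * ins JX (kp z)) * pr₂ := by
      rw [← Matrix.mul_assoc, ← Matrix.mul_assoc, hDh.comm0, Matrix.mul_assoc Dh]
    rw [h2, h1, Matrix.mul_add, Matrix.add_mul, Matrix.mul_smul, Matrix.smul_mul,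
      Matrix.mul_assoc _ pr₂ X₂.d, ← hpr.comm0]
    simp only [Matrix.mul_assoc]
    abel
  refine Bd.one_of_local a ha uX₂ uG 3 (by
      intro j j'
      have := hX₂ j'
      have := hG j
      push_cast
      omega) (by omega) N
    (fun i => Dh * ins JX (kp (y i)) * pr₂ - iW * ad (y i) * al + iP * k i) _ ?_ ?_ ?_
  · intro i
    exact ((hDz (y i)).sub (hadh (y i))).add (hiP.hmg.mul' (hk1 i) (by norm_num))
  · intro i
    have e1 := hδD (y i)
    have e2 : G.d * (iW * ad (y i) * al) = iP * (A * ad (y i) * al) := by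
      rw [← Matrix.mul_assoc, ← Matrix.mul_assoc, hWA]
      simp only [Matrix.mul_assoc]
    have e3 : G.d * (iP * k i) = -(iP * (X₁.d * k i)) := by
      rw [← Matrix.mul_assoc, hpP, Matrix.neg_mul, Matrix.mul_assoc]
    have e4 : (iW * ad (y i) * al) * X₂.d = 0 := by
      rw [Matrix.mul_assoc, halX, Matrix.mul_zero]
    have e5 : A * ad (y i) * al = -(X₁.d * k i + k i * X₂.d) - a i ^ N i • τ := by
      rw [← hk2 i]; abel
    rw [Matrix.mul_add, Matrix.mul_sub, Matrix.add_mul, Matrix.sub_mul, e2, e3, e4, e5]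
    have e6 : G.d * (Dh * ins JX (kp (y i)) * pr₂) =
        (Dh * ins JX (kp (y i)) * pr₂) * X₂.d + lam (y i) • (Dh * ins JX ξ * pr₂) := by
      rw [← e1]; abel
    rw [e6, hy i, smul_add, Matrix.mul_sub, Matrix.mul_neg, Matrix.mul_add, Matrix.mul_smul,
      Matrix.mul_assoc iP (k i) X₂.d]
    abel
  · intro i j
    set z : JW → R := a j ^ N j • y i - a i ^ N i • y j with hz
    have hlz : lam z = 0 := by
      rw [hz, map_sub, map_smul, map_smul, hy, hy, smul_eq_mul, smul_eq_mul]; ring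
    set q : Matrix J₁ J₂ R := a j ^ N j • k i - a i ^ N i • k j with hq
    have hfz : a j ^ N j • (Dh * ins JX (kp (y i)) * pr₂ - iW * ad (y i) * al + iP * k i) -
        a i ^ N i • (Dh * ins JX (kp (y j)) * pr₂ - iW * ad (y j) * al + iP * k j) =
        Dh * ins JX (kp z) * pr₂ - iW * ad z * al + iP * q := by
      rw [hz, hq]
      simp only [map_sub, map_smul, ins_sub, ins_smul, Matrix.mul_sub, Matrix.sub_mul,
        Matrix.mul_smul, Matrix.smul_mul, smul_sub, smul_add]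
      abel
    have hqz : A * ad z * al = -(X₁.d * q + q * X₂.d) := by
      have h1 := hk2 i
      have h2 := hk2 j
      have h3 : A * ad z * al = a j ^ N j • (A * ad (y i) * al + a i ^ N i • τ) -
          a i ^ N i • (A * ad (y j) * al + a j ^ N j • τ) := by
        rw [hz]
        simp only [map_sub, map_smul, Matrix.mul_sub, Matrix.sub_mul, Matrix.mul_smul,
          Matrix.smul_mul, smul_add, smul_smul, mul_comm (a i ^ N i)]
        abel
      rw [h3, h1, h2, hq]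
      simp only [Matrix.mul_sub, Matrix.sub_mul, Matrix.mul_smul, Matrix.smul_mul, smul_neg,
        smul_add]
      abel
    have hqh : IsHmg X₂ X₁ (-1) q := by
      rw [hq]; exact ((hk1 i).smul _).sub ((hk1 j).smul _)
    rw [hfz]
    have hcl : Cl X₂ G 0 (Dh * ins JX (kp z) * pr₂ - iW * ad z * al + iP * q) := by
      refine Cl.mk0 (((hDz z).sub (hadh z)).add (hiP.hmg.mul' hqh (by norm_num))) ?_
      have e1 := hδD z
      rw [hlz, zero_smul, sub_eq_zero] at e1
      have e2 : G.d * (iW * ad z * al) = iP * (A * ad z * al) := by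
        rw [← Matrix.mul_assoc, ← Matrix.mul_assoc, hWA]
        simp only [Matrix.mul_assoc]
      have e3 : G.d * (iP * q) = -(iP * (X₁.d * q)) := by
        rw [← Matrix.mul_assoc, hpP, Matrix.neg_mul, Matrix.mul_assoc]
      have e4 : (iW * ad z * al) * X₂.d = 0 := by
        rw [Matrix.mul_assoc, halX, Matrix.mul_zero]
      rw [Matrix.mul_add, Matrix.mul_sub, Matrix.add_mul, Matrix.sub_mul, e1, e2, e3, e4, hqz,
        Matrix.mul_neg, Matrix.mul_add, Matrix.mul_assoc iP q X₂.d]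
      abel
    refine Bd.of_cycles a ha uX₂ uG 3 (by
      intro j j'
      have := hX₂ j'
      have := hG j
      push_cast
      omega) (by omega) hcl ?_
    intro v hv hdv
    obtain ⟨s, hs, e, g, hg⟩ := hD z v hlz hv hdv
    refine ⟨s, hs, Pool.Agent.Licci.part G.deg (-1) g, ?_⟩
    -- the value
    have e1 : (Dh * ins JX (kp z) * pr₂) *ᵥ v = Dh *ᵥ tv (kp z) (pr₂ *ᵥ v) := by
      rw [← Matrix.mulVec_mulVec, ← Matrix.mulVec_mulVec, ins_mulVec]
    have e2 : (iW * ad z * al) *ᵥ v = iW *ᵥ (ad z *ᵥ (al *ᵥ v)) := by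
      rw [← Matrix.mulVec_mulVec, ← Matrix.mulVec_mulVec]
    have e3 : s • ((Dh * ins JX (kp z) * pr₂ - iW * ad z * al + iP * q) *ᵥ v) =
        iP *ᵥ (e + s • (q *ᵥ v)) + G.d *ᵥ g := by
      rw [Matrix.add_mulVec, Matrix.sub_mulVec, e1, e2, smul_add, smul_sub, hg,
        Matrix.mulVec_add, Matrix.mulVec_smul, ← Matrix.mulVec_mulVec v iP q]
      abel
    -- homogeneous parts
    have hL : Vh G 0 (s • ((Dh * ins JX (kp z) * pr₂ - iW * ad z * al + iP * q) *ᵥ v)) := by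
      have h1 := Vh.mulVec hcl.hmg hv
      intro i hi
      rw [Pi.smul_apply, h1 i hi, smul_zero]
    set e' : J₁ → R := Pool.Agent.Licci.part X₁.deg (-1) (e + s • (q *ᵥ v)) with he'
    set g' : JG → R := Pool.Agent.Licci.part G.deg (-1) g with hg'
    have e4 : s • ((Dh * ins JX (kp z) * pr₂ - iW * ad z * al + iP * q) *ᵥ v) =
        iP *ᵥ e' + G.d *ᵥ g' := by
      have h1 := congrArg (Pool.Agent.Licci.part G.deg 0) e3
      rw [Pool.Agent.Licci.part_eq (vh_iff_supp.1 hL)] at h1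
      rw [h1, he', hg', ← part_mulVec' hiP.hmg, ← part_mulVec' G.hmg]
      funext i
      by_cases hi : G.deg i = 0 <;> simp [Pool.Agent.Licci.part, hi]
    have hve' : Vh X₁ (-1) e' := by
      intro i hi
      rw [he', Pool.Agent.Licci.part, if_neg hi]
    have e5 : X₁.d *ᵥ e' = 0 := by
      apply hinj
      have h1 : G.d *ᵥ (s • ((Dh * ins JX (kp z) * pr₂ - iW * ad z * al + iP * q) *ᵥ v)) = 0 := by
        rw [Matrix.mulVec_smul, Matrix.mulVec_mulVec, hcl.comm0, ← Matrix.mulVec_mulVec, hdv,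
          Matrix.mulVec_zero, smul_zero]
      rw [e4, Matrix.mulVec_add, Matrix.mulVec_mulVec, Matrix.mulVec_mulVec, G.sq,
        Matrix.zero_mulVec, add_zero, hpP, Matrix.neg_mulVec, neg_eq_zero,
        ← Matrix.mulVec_mulVec] at h1
      exact h1
    have e6 := hX₁d e' hve' e5
    rw [e4, e6, Matrix.mulVec_zero, zero_add]

end key

end Cx

end LicciCx

end
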